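import Mathlib

set_option autoImplicit false

namespace Pool.Agent.Lib.MP_276eaf_co

/-- The entries of `τ` at positions in `S` contain a subsequence order-isomorphic to `σ`. -/
def CopyIn {k n : ℕ} (σ : Equiv.Perm (Fin k)) (τ : Equiv.Perm (Fin n)) (S : Set (Fin n)) : Prop :=
  ∃ f : Fin k → Fin n, StrictMono f ∧ (∀ i, f i ∈ S) ∧ ∀ i j, σ i < σ j ↔ τ (f i) < τ (f j)

/-- The permutation 1423 (values shifted down by one). -/
def p1423 : Equiv.Perm (Fin 4) := ⟨![0, 3, 1, 2], ![0, 2, 3, 1], by decide, by decide⟩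

/-- Membership in the class Av(1423). -/
def InC {n : ℕ} (τ : Equiv.Perm (Fin n)) : Prop := ¬ CopyIn p1423 τ Set.univ

/-- `π` is unavoidable in Av(1423): it lies in the class, and for every `ρ` in the class some `τ`
in the class has, for every set `R` of red positions, a red copy of `π` or a blue copy of `ρ`. -/
def Unavoidable {k : ℕ} (π : Equiv.Perm (Fin k)) : Prop :=
  InC π ∧ ∀ (m : ℕ) (ρ : Equiv.Perm (Fin m)), InC ρ →
    ∃ (n : ℕ) (τ : Equiv.Perm (Fin n)), InC τ ∧ ∀ R : Set (Fin n), CopyIn π τ R ∨ CopyIn ρ τ Rᶜ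

/-- The permutation 2413. -/
def p2413 : Equiv.Perm (Fin 4) := ⟨![1, 3, 0, 2], ![2, 0, 3, 1], by decide, by decide⟩

/-- The permutation 3142. -/
def p3142 : Equiv.Perm (Fin 4) := ⟨![2, 0, 3, 1], ![1, 3, 0, 2], by decide, by decide⟩

/-- The permutation 1342. -/
def p1342 : Equiv.Perm (Fin 4) := ⟨![0, 2, 3, 1], ![0, 3, 1, 2], by decide, by decide⟩

end Pool.Agent.Lib.MP_276eaf_co
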