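import Mathlib
import Pool.Agent.Lib.MP_276eaf_co.Defs

set_option autoImplicit false

namespace Pool.Agent.Lib.MP_276eaf_co

/-- A family of arcs with no arc crossed from the right by two nested arcs. -/
structure Arcs {A L : Type} [LinearOrder L] (a b : A → L) : Prop where
  lt : ∀ p, a p < b p
  ainj : Function.Injective a
  binj : Function.Injective b
  free : ∀ p q r, a p < a r → a r < a q → a q < b p → b p < b q → b q < b r → False

/-- A copy of a permutation among the arcs of `S`. -/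
def ACopy {k : ℕ} (σ : Equiv.Perm (Fin k)) {A L : Type} [LinearOrder L] (a b : A → L)
    (S : Set A) : Prop :=
  ∃ f : Fin k → A, StrictMono (b ∘ f) ∧ (∀ i, f i ∈ S) ∧ ∀ i j, σ i < σ j ↔ a (f j) < a (f i)

lemma exists_perm {A L : Type} [Finite A] [LinearOrder L] {a b : A → L} (h : Arcs a b) :
    ∃ (n : ℕ) (τ : Equiv.Perm (Fin n)) (e : Fin n ≃ A), InC τ ∧
      ∀ (k : ℕ) (σ : Equiv.Perm (Fin k)) (R : Set (Fin n)),
        ACopy σ a b (e.symm ⁻¹' R) → CopyIn σ τ R := by
  have := Fintype.ofFinite A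
  let o1 : LinearOrder A := LinearOrder.lift' b h.binj
  let o2 : LinearOrder A := LinearOrder.lift' (fun p => OrderDual.toDual (a p))
    (fun p q hpq => h.ainj hpq)
  let e1 := @monoEquivOfFin A _ o1 _ rfl
  let e2 := @monoEquivOfFin A _ o2 _ rfl
  have h1 : ∀ i j, i < j ↔ b (e1 i) < b (e1 j) := fun i j =>
    (@OrderIso.lt_iff_lt _ _ _ o1.toPreorder e1 i j).symm
  have h2 : ∀ i j, i < j ↔ a (e2 j) < a (e2 i) := fun i j =>
    (@OrderIso.lt_iff_lt _ _ _ o2.toPreorder e2 i j).symm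
  let E1 : Fin (Fintype.card A) ≃ A := @RelIso.toEquiv _ _ _ _ e1
  let E2 : Fin (Fintype.card A) ≃ A := @RelIso.toEquiv _ _ _ _ e2
  have g1 : ∀ i j, i < j ↔ b (E1 i) < b (E1 j) := h1
  have g2 : ∀ i j, (E1.trans E2.symm) i < (E1.trans E2.symm) j ↔ a (E1 j) < a (E1 i) := by
    intro i j
    have := h2 (E2.symm (E1 i)) (E2.symm (E1 j))
    change _ ↔ a (E2 (E2.symm (E1 j))) < a (E2 (E2.symm (E1 i))) at this
    rw [E2.apply_symm_apply, E2.apply_symm_apply] at this
    exact this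
  refine ⟨_, E1.trans E2.symm, E1, ?_, ?_⟩
  · rintro ⟨f, hf, -, hv⟩
    have x01 := (g1 _ _).1 (hf (show (0 : Fin 4) < 1 by decide))
    have x12 := (g1 _ _).1 (hf (show (1 : Fin 4) < 2 by decide))
    have x23 := (g1 _ _).1 (hf (show (2 : Fin 4) < 3 by decide))
    have y02 := (g2 _ _).1 ((hv 0 2).1 (by decide))
    have y23 := (g2 _ _).1 ((hv 2 3).1 (by decide))
    have y31 := (g2 _ _).1 ((hv 3 1).1 (by decide))
    exact h.free (E1 (f 1)) (E1 (f 2)) (E1 (f 3)) y31 y23
      (y02.trans ((h.lt _).trans x01)) x12 x23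
  · rintro k σ R ⟨f, hf, hR, hv⟩
    refine ⟨fun i => E1.symm (f i), fun i j hij => ?_, hR, fun i j => ?_⟩
    · rw [g1]
      simpa using hf hij
    · rw [g2, hv]
      simp

lemma exists_arcs {m : ℕ} (ρ : Equiv.Perm (Fin m)) (hρ : InC ρ) :
    ∃ a b : Fin m → ℕ, Arcs a b ∧ StrictMono b ∧ ∀ i j, ρ i < ρ j ↔ a j < a i := by
  classical
  have hμ : ∀ q : Fin m, ∃ j : Fin m, j ≤ q ∧ ∀ i : Fin m, i ≤ q → ρ j ≤ ρ i := fun q => by
    obtain ⟨j, hj, hmin⟩ := Finset.exists_min_image (Finset.univ.filter (· ≤ q)) ρ ⟨q, by simp⟩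
    simp only [Finset.mem_filter, Finset.mem_univ, true_and] at hj hmin
    exact ⟨j, hj, hmin⟩
  choose μ hμ1 hμ2 using hμ
  have key : ∀ x y : ℕ, ∀ q : Fin m, x * (m + 1) < y * (m + 1) + 1 + q.val ↔ x ≤ y := by
    intro x y q
    have := q.2
    constructor
    · intro h
      by_contra hc
      have : (y + 1) * (m + 1) ≤ x * (m + 1) := Nat.mul_le_mul_right _ (by omega)
      nlinarith
    · intro h
      have : x * (m + 1) ≤ y * (m + 1) := Nat.mul_le_mul_right _ h
      omega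
  have ha : ∀ i j : Fin m, ρ i < ρ j ↔ (m - (ρ j).val) * (m + 1) < (m - (ρ i).val) * (m + 1) := by
    intro i j
    rw [Nat.mul_lt_mul_right (by omega), Fin.lt_def]
    have := (ρ i).2
    have := (ρ j).2
    omega
  have hb : StrictMono (fun q : Fin m => (m - (ρ (μ q)).val) * (m + 1) + 1 + q.val) := by
    intro p q hpq
    have h1 : ρ (μ q) ≤ ρ (μ p) := hμ2 q _ ((hμ1 p).trans hpq.le)
    have h2 : (m - (ρ (μ p)).val) * (m + 1) ≤ (m - (ρ (μ q)).val) * (m + 1) :=
      Nat.mul_le_mul_right _ (by rw [Fin.le_def] at h1; omega)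
    have : p.val < q.val := hpq
    simp only
    omega
  refine ⟨fun p => (m - (ρ p).val) * (m + 1),
    fun q => (m - (ρ (μ q)).val) * (m + 1) + 1 + q.val, ⟨?_, ?_, hb.injective, ?_⟩, hb, ha⟩
  · intro p
    rw [key]
    have := hμ2 p p le_rfl
    rw [Fin.le_def] at this
    omega
  · intro p q hpq
    apply ρ.injective
    rcases lt_trichotomy (ρ p) (ρ q) with h | h | h
    · exact absurd ((ha _ _).1 h) (by simp only at hpq; omega)
    · exact h
    · exact absurd ((ha _ _).1 h) (by simp only at hpq; omega)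
  · intro p q r h1 h2 h3 h4 h5
    rw [← ha] at h1 h2
    rw [hb.lt_iff_lt] at h4 h5
    rw [key] at h3
    have h6 : ρ (μ p) ≤ ρ q := by
      have := (ρ q).2
      have := (ρ (μ p)).2
      rw [Fin.le_def]
      omega
    have h7 : μ p ≠ q := ((hμ1 p).trans_lt h4).ne
    have h8 : ρ (μ p) < ρ q := lt_of_le_of_ne h6 (fun h => h7 (ρ.injective h))
    have h9 : μ p < p := lt_of_le_of_ne (hμ1 p) (fun h => by
      rw [h] at h8
      exact lt_asymm h8 (h2.trans h1))
    refine hρ ⟨![μ p, p, q, r], ?_, fun _ => trivial, ?_⟩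
    · rw [Fin.strictMono_iff_lt_succ]
      intro i
      fin_cases i
      exacts [h9, h4, h5]
    · simp only [Fin.lt_def] at h1 h2 h8 ⊢
      intro i j
      fin_cases i <;> fin_cases j <;> simp [p1423] <;> omega

end Pool.Agent.Lib.MP_276eaf_co
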