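import Mathlib
import Pool.Agent.Lib.MP_276eaf_co.Defs

set_option autoImplicit false

namespace Pool.Agent.Lib.MP_276eaf_co

/-- The permutation 463152 (values shifted down by one). -/
def p463152 : Equiv.Perm (Fin 6) :=
  ⟨![3, 5, 2, 0, 4, 1], ![3, 5, 2, 0, 4, 1], by decide, by decide⟩

/-- The permutation 461352 (values shifted down by one). -/
def p461352 : Equiv.Perm (Fin 6) :=
  ⟨![3, 5, 0, 2, 4, 1], ![2, 5, 3, 0, 4, 1], by decide, by decide⟩

/-- The permutation 5736142 (values shifted down by one). -/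
def p5736142 : Equiv.Perm (Fin 7) :=
  ⟨![4, 6, 2, 5, 0, 3, 1], ![4, 6, 2, 5, 0, 3, 1], by decide, by decide⟩

/-- `τ` avoids `σ`: no subsequence of `τ` is order-isomorphic to `σ`. -/
def Avoids {k n : ℕ} (σ : Equiv.Perm (Fin k)) (τ : Equiv.Perm (Fin n)) : Prop :=
  ¬ CopyIn σ τ Set.univ

end Pool.Agent.Lib.MP_276eaf_co
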