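import Mathlib
import Pool.Agent.Lib.MP_276eaf_co.Arcs

set_option autoImplicit false

namespace Pool.Agent.Lib.MP_276eaf_co

/-- Endpoints after putting a copy of a second family in each of `N` gaps of a first family. -/
def fill {A A' L : Type} (N : ℕ) (z : L) (a : A → ℕ) (a' : A' → L) :
    A ⊕ (Fin N × A') → ℕ ×ₗ L
  | Sum.inl p => toLex (2 * a p + 1, z)
  | Sum.inr q => toLex (2 * q.1.val, a' q.2)

lemma fill_arcs {A A' L : Type} [LinearOrder L] (N : ℕ) (z : L) {a b : A → ℕ} {a' b' : A' → L}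
    (h : Arcs a b) (h' : Arcs a' b') : Arcs (fill N z a a') (fill N z b b') := by
  have inj : ∀ (c : A → ℕ) (c' : A' → L), Function.Injective c → Function.Injective c' →
      Function.Injective (fill N z c c') := by
    intro c c' hc hc' p q hpq
    rcases p with p | ⟨t, p⟩ <;> rcases q with q | ⟨s, q⟩ <;>
      simp only [fill, toLex_inj, Prod.mk.injEq] at hpq
    · rw [hc (show c p = c q by omega)]
    · omega
    · omega
    · rw [Fin.ext (show t.val = s.val by omega), hc' hpq.2]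
  refine ⟨?_, inj _ _ h.ainj h'.ainj, inj _ _ h.binj h'.binj, ?_⟩
  · rintro (p | ⟨t, p⟩) <;> simp only [fill, Prod.Lex.toLex_lt_toLex]
    · have := h.lt p
      omega
    · exact Or.inr ⟨trivial, h'.lt p⟩
  · rintro (p | ⟨t, p⟩) (q | ⟨s, q⟩) (r | ⟨u, r⟩) h1 h2 h3 h4 h5 <;>
      simp only [fill, Prod.Lex.toLex_lt_toLex, lt_irrefl, and_false, or_false] at h1 h2 h3 h4 h5
    · exact h.free p q r (by omega) (by omega) (by omega) (by omega) (by omega)
    · omega
    · omega
    · omega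
    · omega
    · omega
    · omega
    · have e1 : t.val = s.val := by omega
      have e2 : t.val = u.val := by omega
      exact h'.free p q r (h1.resolve_left (by omega)).2 (h2.resolve_left (by omega)).2
        (h3.resolve_left (by omega)).2 (h4.resolve_left (by omega)).2
        (h5.resolve_left (by omega)).2

/-- Two families side by side. -/
def side {A A' : Type} (a : A → ℕ) (a' : A' → ℕ) : A ⊕ A' → ℕ ×ₗ ℕ
  | Sum.inl p => toLex (0, a p)
  | Sum.inr q => toLex (1, a' q)

lemma side_arcs {A A' : Type} {a b : A → ℕ} {a' b' : A' → ℕ} (h : Arcs a b) (h' : Arcs a' b') :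
    Arcs (side a a') (side b b') := by
  have inj : ∀ (c : A → ℕ) (c' : A' → ℕ), Function.Injective c → Function.Injective c' →
      Function.Injective (side c c') := by
    intro c c' hc hc' p q hpq
    rcases p with p | p <;> rcases q with q | q <;>
      simp only [side, toLex_inj, Prod.mk.injEq] at hpq
    · rw [hc hpq.2]
    · omega
    · omega
    · rw [hc' hpq.2]
  refine ⟨?_, inj _ _ h.ainj h'.ainj, inj _ _ h.binj h'.binj, ?_⟩
  · rintro (p | p) <;> simp only [side, Prod.Lex.toLex_lt_toLex]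
    · exact Or.inr ⟨trivial, h.lt p⟩
    · exact Or.inr ⟨trivial, h'.lt p⟩
  · rintro (p | p) (q | q) (r | r) h1 h2 h3 h4 h5 <;>
      simp only [side, Prod.Lex.toLex_lt_toLex] at h1 h2 h3 h4 h5
    · exact h.free p q r (by omega) (by omega) (by omega) (by omega) (by omega)
    · omega
    · omega
    · omega
    · omega
    · omega
    · omega
    · exact h'.free p q r (by omega) (by omega) (by omega) (by omega) (by omega)

/-- In the filled family, either the colouring already succeeds or every gap has both colours. -/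
lemma slots {k m : ℕ} (π : Equiv.Perm (Fin k)) (ρ : Equiv.Perm (Fin m)) {A : Type} (N : ℕ)
    (a b : A → ℕ) {c d : Fin k → ℕ} {c' d' : Fin m → ℕ}
    (hd : StrictMono d) (hc : ∀ i j, π i < π j ↔ c j < c i)
    (hd' : StrictMono d') (hc' : ∀ i j, ρ i < ρ j ↔ c' j < c' i)
    (R : Set (A ⊕ (Fin N × (Fin k ⊕ Fin m)))) :
    ACopy π (fill N (toLex (0, 0)) a (side c c')) (fill N (toLex (0, 0)) b (side d d')) R ∨
    ACopy ρ (fill N (toLex (0, 0)) a (side c c')) (fill N (toLex (0, 0)) b (side d d')) Rᶜ ∨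
    ∀ t : Fin N, (∃ x, Sum.inr (t, x) ∈ R) ∧ (∃ x, Sum.inr (t, x) ∉ R) := by
  by_contra hcon
  simp only [not_or, not_forall, not_and_or, not_exists, not_not] at hcon
  obtain ⟨h1, h2, t, h3 | h3⟩ := hcon
  · refine h2 ⟨fun j => Sum.inr (t, Sum.inr j), fun i j hij => ?_, fun j => h3 _, fun i j => ?_⟩
    · simp [fill, side, Prod.Lex.toLex_lt_toLex, hd' hij]
    · simp [fill, side, Prod.Lex.toLex_lt_toLex, hc']
  · refine h1 ⟨fun j => Sum.inr (t, Sum.inl j), fun i j hij => ?_, fun j => h3 _, fun i j => ?_⟩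
    · simp [fill, side, Prod.Lex.toLex_lt_toLex, hd hij]
    · simp [fill, side, Prod.Lex.toLex_lt_toLex, hc]

/-- Every arc replaced by two crossing arcs. -/
def dbl {A : Type} (o : ℕ) (a : A → ℕ) (p : A × Bool) : ℕ :=
  4 * a p.1 + o + (if p.2 then 1 else 0)

lemma dbl_arcs {A : Type} {a b : A → ℕ} (h : Arcs a b) : Arcs (dbl 2 a) (dbl 0 b) := by
  have inj : ∀ o, ∀ c : A → ℕ, Function.Injective c → Function.Injective (dbl o c) := by
    rintro o c hc ⟨p, x⟩ ⟨q, y⟩ hpq
    simp only [dbl] at hpq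
    cases x <;> cases y <;> simp at hpq ⊢
    · exact hc hpq
    · omega
    · omega
    · exact hc hpq
  refine ⟨?_, inj _ _ h.ainj, inj _ _ h.binj, ?_⟩
  · rintro ⟨p, x⟩
    have := h.lt p
    cases x <;> simp [dbl] <;> omega
  · rintro ⟨p, x⟩ ⟨q, y⟩ ⟨r, z⟩ h1 h2 h3 h4 h5
    simp only [dbl] at h1 h2 h3 h4 h5
    have hp := h.lt p
    have e1 : a p = a q ↔ b p = b q := ⟨fun e => by rw [h.ainj e], fun e => by rw [h.binj e]⟩
    have e2 : a p = a r ↔ b p = b r := ⟨fun e => by rw [h.ainj e], fun e => by rw [h.binj e]⟩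
    have e3 : a q = a r ↔ b q = b r := ⟨fun e => by rw [h.ainj e], fun e => by rw [h.binj e]⟩
    have e6 : ¬ (a p < a r ∧ a r < a q ∧ a q < b p ∧ b p < b q ∧ b q < b r) :=
      fun ⟨u1, u2, u3, u4, u5⟩ => h.free p q r u1 u2 u3 u4 u5
    cases x <;> cases y <;> cases z <;>
      simp only [Bool.false_eq_true, if_true, if_false] at h1 h2 h3 h4 h5 <;> omega

lemma unavoidable_of_pair (π : Equiv.Perm (Fin 4)) (hπ : InC π)
    (H : ∀ (A : Type) (N : ℕ) (a b : A → ℕ) (c d : Fin 4 ⊕ A → ℕ ×ₗ ℕ) (p : A), a p < b p →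
      4 * b p + 3 < N → ∀ R : Set ((A × Bool) ⊕ (Fin N × (Fin 4 ⊕ A))),
      (∀ t : Fin N, ∃ x, Sum.inr (t, x) ∈ R) → (∀ x, Sum.inl (p, x) ∈ R) →
      ACopy π (fill N (toLex (0, 0)) (dbl 2 a) c) (fill N (toLex (0, 0)) (dbl 0 b) d) R) :
    Unavoidable π := by
  refine ⟨hπ, fun m ρ hρ => ?_⟩
  obtain ⟨c, d, hcd, hd, hc⟩ := exists_arcs π hπ
  obtain ⟨a, b, hab, hb, ha⟩ := exists_arcs ρ hρ
  obtain ⟨M, hM⟩ := Finite.exists_le b
  obtain ⟨n, τ, e, hτ, he⟩ := exists_perm
    (fill_arcs (4 * M + 4) (toLex (0, 0)) (dbl_arcs hab) (side_arcs hcd hab))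
  refine ⟨n, τ, hτ, fun R => ?_⟩
  rcases slots π ρ (4 * M + 4) (dbl 2 a) (dbl 0 b) hd hc hb ha (e.symm ⁻¹' R) with h | h | h
  · exact Or.inl (he _ _ _ h)
  · exact Or.inr (he _ _ _ h)
  · by_cases h2 : ∃ p, ∀ x, Sum.inl (p, x) ∈ e.symm ⁻¹' R
    · obtain ⟨p, hp⟩ := h2
      have := hM p
      exact Or.inl (he _ _ _ (H _ _ a b _ _ p (hab.lt p) (by omega) _ (fun t => (h t).1) hp))
    · simp only [not_exists, not_forall] at h2
      choose x hx using h2
      refine Or.inr (he _ _ _ ⟨fun p => Sum.inl (p, x p), fun i j hij => ?_, hx, fun i j => ?_⟩)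
      · have := hb hij
        simp only [Function.comp, fill, dbl, Prod.Lex.toLex_lt_toLex]
        split_ifs <;> omega
      · rw [ha]
        have e1 : a i = a j → x i = x j := fun e => by rw [hab.ainj e]
        simp only [fill, dbl, Prod.Lex.toLex_lt_toLex, lt_irrefl, and_false, or_false]
        by_cases e2 : a i = a j
        · rw [e1 e2, e2]
          simp
        · split_ifs <;> omega

lemma unavoidable_2413 : Unavoidable p2413 := by
  refine unavoidable_of_pair _ ?_ ?_
  · rintro ⟨f, hf, -, hv⟩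
    have e : f = id := by
      have := (StrictMono.range_inj hf strictMono_id).1
        (by rw [Set.range_id, (Finite.injective_iff_surjective.1 hf.injective).range_eq])
      exact this
    subst e
    exact absurd ((hv 0 2).1 (by decide)) (by decide)
  · intro A N a b c d p hp hN R h1 h2
    obtain ⟨x, hx⟩ := h1 ⟨4 * b p, by omega⟩
    obtain ⟨y, hy⟩ := h1 ⟨4 * b p + 1, by omega⟩
    refine ⟨![Sum.inr (⟨4 * b p, by omega⟩, x), Sum.inl (p, false),
      Sum.inr (⟨4 * b p + 1, by omega⟩, y), Sum.inl (p, true)], ?_, ?_, ?_⟩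
    · rw [Fin.strictMono_iff_lt_succ]
      intro i
      fin_cases i <;> simp [fill, dbl, Prod.Lex.toLex_lt_toLex] <;> omega
    · intro i
      fin_cases i
      exacts [hx, h2 _, hy, h2 _]
    · intro i j
      fin_cases i <;> fin_cases j <;> simp [p2413, fill, dbl, Prod.Lex.toLex_lt_toLex] <;> omega

lemma unavoidable_3142 : Unavoidable p3142 := by
  refine unavoidable_of_pair _ ?_ ?_
  · rintro ⟨f, hf, -, hv⟩
    have e : f = id := by
      have := (StrictMono.range_inj hf strictMono_id).1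
        (by rw [Set.range_id, (Finite.injective_iff_surjective.1 hf.injective).range_eq])
      exact this
    subst e
    exact absurd ((hv 0 3).1 (by decide)) (by decide)
  · intro A N a b c d p hp hN R h1 h2
    obtain ⟨x, hx⟩ := h1 ⟨4 * a p + 3, by omega⟩
    obtain ⟨y, hy⟩ := h1 ⟨4 * b p, by omega⟩
    refine ⟨![Sum.inr (⟨4 * a p + 3, by omega⟩, x), Sum.inr (⟨4 * b p, by omega⟩, y),
      Sum.inl (p, false), Sum.inl (p, true)], ?_, ?_, ?_⟩
    · rw [Fin.strictMono_iff_lt_succ]
      intro i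
      fin_cases i <;> simp [fill, dbl, Prod.Lex.toLex_lt_toLex] <;> omega
    · intro i
      fin_cases i
      exacts [hx, hy, h2 _, h2 _]
    · intro i j
      fin_cases i <;> fin_cases j <;> simp [p3142, fill, dbl, Prod.Lex.toLex_lt_toLex] <;> omega

end Pool.Agent.Lib.MP_276eaf_co
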