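import Mathlib

set_option autoImplicit false

namespace Pool.Agent.Lib.MP_276eaf_co

abbrev Pt : Type := ℚ × ℚ

structure Inj (T : Finset Pt) : Prop where
  i1 : ∀ p ∈ T, ∀ q ∈ T, p.1 = q.1 → p = q
  i2 : ∀ p ∈ T, ∀ q ∈ T, p.2 = q.2 → p = q

lemma Inj.tri1 {T : Finset Pt} (h : Inj T) {p q : Pt} (hp : p ∈ T) (hq : q ∈ T) :
    p.1 < q.1 ∨ p = q ∨ q.1 < p.1 := by
  rcases lt_trichotomy p.1 q.1 with e | e | e
  exacts [Or.inl e, Or.inr (Or.inl (h.i1 p hp q hq e)), Or.inr (Or.inr e)]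

lemma Inj.tri2 {T : Finset Pt} (h : Inj T) {p q : Pt} (hp : p ∈ T) (hq : q ∈ T) :
    p.2 < q.2 ∨ p = q ∨ q.2 < p.2 := by
  rcases lt_trichotomy p.2 q.2 with e | e | e
  exacts [Or.inl e, Or.inr (Or.inl (h.i2 p hp q hq e)), Or.inr (Or.inr e)]

lemma Inj.mono {T U : Finset Pt} (h : Inj T) (hU : U ⊆ T) : Inj U :=
  ⟨fun p hp q hq => h.i1 p (hU hp) q (hU hq), fun p hp q hq => h.i2 p (hU hp) q (hU hq)⟩

structure Good (T : Finset Pt) : Prop extends Inj T where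
  lt : ∀ p ∈ T, p.1 < p.2
  free : ∀ p ∈ T, ∀ q ∈ T, ∀ r ∈ T,
    p.1 < r.1 → r.1 < q.1 → q.1 < p.2 → p.2 < q.2 → q.2 < r.2 → False

lemma Good.mono {T U : Finset Pt} (h : Good T) (hU : U ⊆ T) : Good U :=
  ⟨h.toInj.mono hU, fun p hp => h.lt p (hU hp),
    fun p hp q hq r hr => h.free p (hU hp) q (hU hq) r (hU hr)⟩

def No312 (X : Finset Pt) : Prop :=
  ∀ p ∈ X, ∀ q ∈ X, ∀ r ∈ X, p.1 < r.1 → r.1 < q.1 → p.2 < q.2 → q.2 < r.2 → False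

structure Av4 (N : Finset Pt) : Prop where
  f1 : ∀ m ∈ N, ∀ p ∈ N, ∀ q ∈ N, ∀ r ∈ N, m.2 < p.2 → p.2 < q.2 → q.2 < r.2 →
    p.1 < r.1 → r.1 < q.1 → q.1 < m.1 → False
  f2 : ∀ e1 ∈ N, ∀ e2 ∈ N, ∀ e3 ∈ N, ∀ e4 ∈ N, ∀ e5 ∈ N, ∀ e6 ∈ N,
    e1.2 < e2.2 → e2.2 < e3.2 → e3.2 < e4.2 → e4.2 < e5.2 → e5.2 < e6.2 →
    e2.1 < e5.1 → e5.1 < e1.1 → e1.1 < e3.1 → e3.1 < e6.1 → e6.1 < e4.1 → False
  f3 : ∀ e1 ∈ N, ∀ e2 ∈ N, ∀ e3 ∈ N, ∀ e4 ∈ N, ∀ e5 ∈ N, ∀ e6 ∈ N,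
    e1.2 < e2.2 → e2.2 < e3.2 → e3.2 < e4.2 → e4.2 < e5.2 → e5.2 < e6.2 →
    e2.1 < e5.1 → e5.1 < e1.1 → e1.1 < e4.1 → e4.1 < e6.1 → e6.1 < e3.1 → False
  f4 : ∀ e1 ∈ N, ∀ e2 ∈ N, ∀ e3 ∈ N, ∀ e4 ∈ N, ∀ e5 ∈ N, ∀ e6 ∈ N, ∀ e7 ∈ N,
    e1.2 < e2.2 → e2.2 < e3.2 → e3.2 < e4.2 → e4.2 < e5.2 → e5.2 < e6.2 → e6.2 < e7.2 →
    e2.1 < e4.1 → e4.1 < e1.1 → e1.1 < e6.1 → e6.1 < e3.1 → e3.1 < e7.1 → e7.1 < e5.1 → False

lemma Av4.mono {T U : Finset Pt} (h : Av4 T) (hU : U ⊆ T) : Av4 U :=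
  ⟨fun a ha b hb c hc d hd => h.f1 a (hU ha) b (hU hb) c (hU hc) d (hU hd),
   fun a ha b hb c hc d hd e he f hf =>
    h.f2 a (hU ha) b (hU hb) c (hU hc) d (hU hd) e (hU he) f (hU hf),
   fun a ha b hb c hc d hd e he f hf =>
    h.f3 a (hU ha) b (hU hb) c (hU hc) d (hU hd) e (hU he) f (hU hf),
   fun a ha b hb c hc d hd e he f hf g hg =>
    h.f4 a (hU ha) b (hU hb) c (hU hc) d (hU hd) e (hU he) f (hU hf) g (hU hg)⟩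

structure Emb (Y T : Finset Pt) (c : Pt → Prop) (f : Pt → Pt) : Prop where
  mem : ∀ y ∈ Y, f y ∈ T
  col : ∀ y ∈ Y, c (f y)
  m1 : ∀ y ∈ Y, ∀ y' ∈ Y, y.1 < y'.1 → (f y).1 < (f y').1
  m2 : ∀ y ∈ Y, ∀ y' ∈ Y, y.2 < y'.2 → (f y).2 < (f y').2

lemma Emb.mono {Y T U : Finset Pt} {c : Pt → Prop} {f : Pt → Pt} (h : Emb Y T c f) (hU : T ⊆ U) :
    Emb Y U c f := ⟨fun y hy => hU (h.mem y hy), h.col, h.m1, h.m2⟩

def Red (σ T : Finset Pt) (c : Pt → Prop) : Prop :=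
  ∃ f g, Emb σ T c f ∧ ∀ y ∈ σ, (f y).1 < g ∧ g < (f y).2

lemma Red.mono {σ T U : Finset Pt} {c : Pt → Prop} (h : Red σ T c) (hU : T ⊆ U) : Red σ U c := by
  obtain ⟨f, g, h1, h2⟩ := h
  exact ⟨f, g, h1.mono hU, h2⟩

def Zone (T : Finset Pt) (l0 l1 r0 r1 : ℚ) : Prop :=
  ∀ p ∈ T, l0 < p.1 ∧ p.1 < l1 ∧ (p.2 < l1 ∨ (r0 < p.2 ∧ p.2 < r1))

def SA (σ X Y : Finset Pt) (g : ℚ) : Prop :=
  ∀ l0 l1 r0 r1 : ℚ, l0 < l1 → l1 ≤ r0 → r0 < r1 → ∃ T, Good T ∧ Zone T l0 l1 r0 r1 ∧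
    ∀ c : Pt → Prop, Red σ T c ∨ (∃ f, Emb X T c f ∧ ∀ y ∈ X, r0 < (f y).2) ∨
      ∃ f, Emb Y T (fun p => ¬ c p) f ∧
        ∀ y ∈ Y, (y.2 ≤ g → (f y).2 < l1) ∧ (g < y.2 → r0 < (f y).2)

def Safe (T : Finset Pt) (S : Finset ℚ) : Prop :=
  ∀ s ∈ S, (∀ p ∈ T, p.1 ≠ s) ∧
    ∀ p ∈ T, ∀ q ∈ T, p.1 < s → s < q.1 → q.1 < p.2 → p.2 < q.2 → False

def SM (σ K : Finset Pt) (S : Finset ℚ) : Prop :=
  ∀ l0 l1 : ℚ, l0 < l1 → ∃ (T : Finset Pt) (S' : Finset ℚ), Good T ∧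
    (∀ p ∈ T, l0 < p.1 ∧ p.2 < l1) ∧ (∀ s ∈ S', l0 < s ∧ s < l1) ∧ Safe T S' ∧
    ∀ c : Pt → Prop, Red σ T c ∨ ∃ (f : Pt → Pt) (m : ℚ → ℚ), Emb K T (fun p => ¬ c p) f ∧
      (∀ s ∈ S, m s ∈ S') ∧ (∀ s ∈ S, ∀ s' ∈ S, s < s' → m s < m s') ∧
      ∀ s ∈ S, ∀ y ∈ K, (s < y.1 → m s < (f y).1) ∧ (y.1 < s → (f y).1 < m s)

lemma exists_nx (E : Finset ℚ) (u : ℚ) (hu : ∀ e ∈ E, e < u) :
    ∃ nx : ℚ → ℚ, ∀ e ∈ E, e < nx e ∧ nx e ≤ u ∧ ∀ e' ∈ E, e < e' → nx e ≤ e' := by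
  classical
  have : ∀ e ∈ E, ∃ x, e < x ∧ x ≤ u ∧ ∀ e' ∈ E, e < e' → x ≤ e' := by
    intro e he
    obtain ⟨x, hx, hmin⟩ := Finset.exists_min_image ((insert u E).filter (e < ·)) id
      ⟨u, by simp [hu e he]⟩
    simp only [Finset.mem_filter, Finset.mem_insert, id] at hx hmin
    exact ⟨x, hx.2, hmin u ⟨Or.inl rfl, hu e he⟩, fun e' he' h => hmin e' ⟨Or.inr he', h⟩⟩
  choose! nx hnx using this
  exact ⟨nx, hnx⟩

lemma exists_anchor {β : Type} (b0 : ℚ) (E : Finset ℚ) (P : β → ℚ → Prop) :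
    ∃ e : β → ℚ, (∀ y, (∀ x ∈ E, P y x → x ≤ e y) ∧ b0 ≤ e y ∧ (e y = b0 ∨ (e y ∈ E ∧ P y (e y))))
      ∧ ∀ y y', (∀ x ∈ E, P y x → P y' x) → e y ≤ e y' := by
  classical
  have : ∀ y, ∃ v, (∀ x ∈ E, P y x → x ≤ v) ∧ b0 ≤ v ∧ (v = b0 ∨ (v ∈ E ∧ P y v)) := by
    intro y
    obtain ⟨x, hx, hmax⟩ := Finset.exists_max_image (insert b0 (E.filter (P y))) id ⟨b0, by simp⟩
    simp only [Finset.mem_filter, Finset.mem_insert, id] at hx hmax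
    exact ⟨x, fun z hz h => hmax z (Or.inr ⟨hz, h⟩), hmax b0 (Or.inl rfl), hx⟩
  choose e he using this
  refine ⟨e, he, fun y y' h => ?_⟩
  rcases (he y).2.2 with h1 | h1
  · rw [h1]; exact (he y').2.1
  · exact (he y').1 _ h1.1 (h _ h1.1 h1.2)

lemma exists_aff (u v x y : ℚ) (h1 : u < v) (h2 : x < y) :
    ∃ β : ℚ → ℚ, StrictMono β ∧ β u = x ∧ β v = y := by
  have h3 : 0 < (y - x) / (v - u) := div_pos (by linarith) (by linarith)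
  refine ⟨fun t => x + (t - u) * ((y - x) / (v - u)), fun s t hst => ?_, by simp, ?_⟩
  · have := mul_lt_mul_of_pos_right (show s - u < t - u by linarith) h3
    simp only
    linarith
  · have : v - u ≠ 0 := by linarith [h1] |> fun (h : 0 < v - u) => h.ne'
    field_simp
    ring

/-- Closed families placed in gaps of a family. -/
lemma good_gap {T0 : Finset Pt} {E : Finset ℚ} {nx : ℚ → ℚ} {F : ℚ → Finset Pt} (h0 : Good T0)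
    (hF : ∀ e ∈ E, Good (F e)) (hin : ∀ e ∈ E, ∀ p ∈ F e, e < p.1 ∧ p.2 < nx e)
    (hnx : ∀ e ∈ E, ∀ e' ∈ E, e < e' → nx e ≤ e')
    (hgap : ∀ e ∈ E, ∀ p ∈ T0, (p.1 ≤ e ∨ nx e ≤ p.1) ∧ (p.2 ≤ e ∨ nx e ≤ p.2)) :
    Good (T0 ∪ E.biUnion F) := by
  have key : ∀ e ∈ E, ∀ e' ∈ E, ∀ t : ℚ, e < t → t < nx e → e' < t → t < nx e' → e = e' := by
    intro e he e' he' t a1 a2 a3 a4
    rcases lt_trichotomy e e' with h | h | h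
    · have := hnx e he e' he' h; linarith
    · exact h
    · have := hnx e' he' e he h; linarith
  have mem : ∀ p, p ∈ T0 ∪ E.biUnion F ↔ p ∈ T0 ∨ ∃ e ∈ E, p ∈ F e := by simp
  have loc : ∀ e ∈ E, ∀ q ∈ T0 ∪ E.biUnion F,
      (e < q.1 ∧ q.1 < nx e) ∨ (e < q.2 ∧ q.2 < nx e) → q ∈ F e := by
    intro e he q hq h
    rcases (mem q).1 hq with h1 | ⟨e', he', h1⟩
    · have := hgap e he q h1
      exfalso
      rcases h with ⟨a, b⟩ | ⟨a, b⟩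
      · rcases this.1 with c | c <;> linarith
      · rcases this.2 with c | c <;> linarith
    · have a1 := hin e' he' q h1
      have a2 := (hF e' he').lt q h1
      rcases h with ⟨a, b⟩ | ⟨a, b⟩
      · rwa [key e he e' he' q.1 a b a1.1 (by linarith)]
      · rwa [key e he e' he' q.2 a b (by linarith) a1.2]
  refine ⟨⟨?_, ?_⟩, ?_, ?_⟩
  · intro p hp q hq h
    rcases (mem p).1 hp with h1 | ⟨e, he, h1⟩
    · rcases (mem q).1 hq with h2 | ⟨e, he, h2⟩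
      · exact h0.i1 p h1 q h2 h
      · have a1 := hin e he q h2
        have a2 := (hF e he).lt q h2
        exact (hF e he).i1 p (loc e he p hp (Or.inl ⟨by linarith, by linarith⟩)) q h2 h
    · have a1 := hin e he p h1
      have a2 := (hF e he).lt p h1
      exact (hF e he).i1 p h1 q (loc e he q hq (Or.inl ⟨by linarith, by linarith⟩)) h
  · intro p hp q hq h
    rcases (mem p).1 hp with h1 | ⟨e, he, h1⟩
    · rcases (mem q).1 hq with h2 | ⟨e, he, h2⟩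
      · exact h0.i2 p h1 q h2 h
      · have a1 := hin e he q h2
        have a2 := (hF e he).lt q h2
        exact (hF e he).i2 p (loc e he p hp (Or.inr ⟨by linarith, by linarith⟩)) q h2 h
    · have a1 := hin e he p h1
      have a2 := (hF e he).lt p h1
      exact (hF e he).i2 p h1 q (loc e he q hq (Or.inr ⟨by linarith, by linarith⟩)) h
  · intro p hp
    rcases (mem p).1 hp with h1 | ⟨e, he, h1⟩
    exacts [h0.lt p h1, (hF e he).lt p h1]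
  · intro p hp q hq r hr a1 a2 a3 a4 a5
    rcases (mem p).1 hp with h1 | ⟨e, he, h1⟩
    · rcases (mem q).1 hq with h2 | ⟨e, he, h2⟩
      · rcases (mem r).1 hr with h3 | ⟨e, he, h3⟩
        · exact h0.free p h1 q h2 r h3 a1 a2 a3 a4 a5
        · have b := hin e he r h3
          rcases (hgap e he p h1).2 with c | c <;> linarith
      · have b := hin e he q h2
        rcases (hgap e he p h1).2 with c | c <;> linarith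
    · have b := hin e he p h1
      exact (hF e he).free p h1 q (loc e he q hq (Or.inl ⟨by linarith, by linarith⟩)) r
        (loc e he r hr (Or.inl ⟨by linarith, by linarith⟩)) a1 a2 a3 a4 a5

end Pool.Agent.Lib.MP_276eaf_co
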