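import Mathlib
import Pool.Agent.Lib.MP_276eaf_co.Pts

set_option autoImplicit false

namespace Pool.Agent.Lib.MP_276eaf_co

/-- Nested pointed families below a marked family whose marks carry a queue of arcs. -/
lemma good_per {E S : Finset ℚ} {nx α β : ℚ → ℚ} {W : ℚ → Finset Pt} {Γ : Finset Pt} {lc l1 : ℚ}
    (hα : StrictAnti α) (hβ : StrictMono β) (hW : ∀ e ∈ E, Good (W e))
    (hZ : ∀ e ∈ E, Zone (W e) (α (nx e)) (α e) (β e) (β (nx e)))
    (hnx : ∀ e ∈ E, ∀ e' ∈ E, e < e' → nx e ≤ e') (h1 : ∀ e ∈ E, α e ≤ lc ∧ l1 ≤ β e)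
    (hl : lc < l1) (hΓ : Good Γ) (hin : ∀ p ∈ Γ, lc < p.1 ∧ p.2 < l1) (hSE : S ⊆ E)
    (hS : ∀ s ∈ S, lc < s ∧ s < l1) (hsafe : Safe Γ S) :
    Good (E.biUnion W ∪ (Γ ∪ S.image (fun s => (s, β s)))) := by
  have mem : ∀ p, p ∈ E.biUnion W ∪ (Γ ∪ S.image (fun s => (s, β s))) ↔
      (∃ e ∈ E, p ∈ W e) ∨ p ∈ Γ ∨ ∃ s ∈ S, (s, β s) = p := by simp
  have keyL : ∀ e ∈ E, ∀ e' ∈ E, ∀ t : ℚ, α (nx e) < t → t < α e → α (nx e') < t → t < α e' →
      e = e' := by
    intro e he e' he' t a1 a2 a3 a4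
    rcases lt_trichotomy e e' with h | h | h
    · have := hα.antitone (hnx e he e' he' h); linarith
    · exact h
    · have := hα.antitone (hnx e' he' e he h); linarith
  have keyR : ∀ e ∈ E, ∀ e' ∈ E, ∀ t : ℚ, β e < t → t < β (nx e) → β e' < t → t < β (nx e') →
      e = e' := by
    intro e he e' he' t a1 a2 a3 a4
    rcases lt_trichotomy e e' with h | h | h
    · have := hβ.monotone (hnx e he e' he' h); linarith
    · exact h
    · have := hβ.monotone (hnx e' he' e he h); linarith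
  have locL : ∀ e ∈ E, ∀ q ∈ E.biUnion W ∪ (Γ ∪ S.image (fun s => (s, β s))),
      α (nx e) < q.1 → q.1 < α e → q ∈ W e := by
    intro e he q hq a1 a2
    rcases (mem q).1 hq with ⟨e', he', h⟩ | h | ⟨s, hs, h⟩
    · rwa [keyL e he e' he' q.1 a1 a2 (hZ e' he' q h).1 (hZ e' he' q h).2.1]
    · linarith [(hin q h).1, (h1 e he).1]
    · subst h
      linarith [(hS s hs).1, (h1 e he).1]
  have loc2 : ∀ e ∈ E, ∀ q ∈ E.biUnion W ∪ (Γ ∪ S.image (fun s => (s, β s))),
      (α (nx e) < q.2 ∧ q.2 < α e) ∨ (β e < q.2 ∧ q.2 < β (nx e)) → q ∈ W e := by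
    intro e he q hq a
    have b := h1 e he
    rcases (mem q).1 hq with ⟨e', he', h⟩ | h | ⟨s, hs, h⟩
    · have b' := h1 e' he'
      have z := hZ e' he' q h
      have z' := (hW e' he').lt q h
      rcases a with a | a <;> rcases z.2.2 with u | u
      · rwa [keyL e he e' he' q.2 a.1 a.2 (by linarith) u]
      · linarith
      · linarith
      · rwa [keyR e he e' he' q.2 a.1 a.2 u.1 u.2]
    · have u := hin q h
      have u' := hΓ.lt q h
      rcases a with a | a <;> linarith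
    · subst h
      have u := (h1 s (hSE hs)).2
      rcases a with a | a
      · simp only at a
        linarith
      · have := hnx e he s (hSE hs) (hβ.lt_iff_lt.1 a.1)
        have := hβ.lt_iff_lt.1 a.2
        linarith
  have zone2 : ∀ e ∈ E, ∀ q ∈ W e,
      (α (nx e) < q.2 ∧ q.2 < α e) ∨ (β e < q.2 ∧ q.2 < β (nx e)) := by
    intro e he q h
    have z := hZ e he q h
    have z' := (hW e he).lt q h
    rcases z.2.2 with u | u
    · exact Or.inl ⟨by linarith, u⟩
    · exact Or.inr u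
  refine ⟨⟨?_, ?_⟩, ?_, ?_⟩
  · intro p hp q hq h
    rcases (mem p).1 hp with ⟨e, he, a⟩ | a | ⟨s, hs, a⟩
    · have z := hZ e he p a
      exact (hW e he).i1 p a q (locL e he q hq (by linarith) (by linarith)) h
    · rcases (mem q).1 hq with ⟨e, he, b⟩ | b | ⟨s, hs, b⟩
      · linarith [(hZ e he q b).2.1, (h1 e he).1, (hin p a).1]
      · exact hΓ.i1 p a q b h
      · subst b
        exact ((hsafe s hs).1 p a h).elim
    · subst a
      rcases (mem q).1 hq with ⟨e, he, b⟩ | b | ⟨s', hs', b⟩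
      · simp only at h
        linarith [(hZ e he q b).2.1, (h1 e he).1, (hS s hs).1]
      · exact ((hsafe s hs).1 q b h.symm).elim
      · subst b
        simp only at h
        rw [h]
  · intro p hp q hq h
    rcases (mem p).1 hp with ⟨e, he, a⟩ | a
    · exact (hW e he).i2 p a q (loc2 e he q hq (h ▸ zone2 e he p a)) h
    · rcases (mem q).1 hq with ⟨e, he, b⟩ | b
      · exact (hW e he).i2 p (loc2 e he p hp (h ▸ zone2 e he q b)) q b h
      · rcases a with a | ⟨s, hs, a⟩ <;> rcases b with b | ⟨s', hs', b⟩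
        · exact hΓ.i2 p a q b h
        · subst b
          simp only at h
          linarith [(hin p a).2, (h1 s' (hSE hs')).2]
        · subst a
          simp only at h
          linarith [(hin q b).2, (h1 s (hSE hs)).2]
        · subst a b
          rw [hβ.injective h]
  · intro p hp
    rcases (mem p).1 hp with ⟨e, he, a⟩ | a | ⟨s, hs, a⟩
    · exact (hW e he).lt p a
    · exact hΓ.lt p a
    · subst a
      simp only
      linarith [(hS s hs).2, (h1 s (hSE hs)).2]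
  · intro p hp q hq r hr a1 a2 a3 a4 a5
    have zz : (∃ s ∈ S, (s, β s) = q) → (∃ s ∈ S, (s, β s) = r) → False := by
      rintro ⟨s, -, rfl⟩ ⟨s', -, rfl⟩
      exact lt_asymm a5 (hβ a2)
    have up : ∀ x ∈ E.biUnion W ∪ (Γ ∪ S.image (fun s => (s, β s))), lc < x.1 →
        x ∈ Γ ∨ ∃ s ∈ S, (s, β s) = x := by
      intro x hx u
      rcases (mem x).1 hx with ⟨e, he, b⟩ | b
      · linarith [(hZ e he x b).2.1, (h1 e he).1]
      · exact b
    have upz : ∀ x ∈ E.biUnion W ∪ (Γ ∪ S.image (fun s => (s, β s))), lc < x.1 → l1 ≤ x.2 →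
        ∃ s ∈ S, (s, β s) = x := fun x hx u v =>
      (up x hx u).resolve_left (fun b => by linarith [(hin x b).2])
    rcases (mem p).1 hp with ⟨e, he, a⟩ | a | ⟨s, hs, a⟩
    · have z := hZ e he p a
      have b := h1 e he
      rcases z.2.2 with u | u
      · exact (hW e he).free p a q (locL e he q hq (by linarith) (by linarith)) r
          (locL e he r hr (by linarith) (by linarith)) a1 a2 a3 a4 a5
      · rcases (mem r).1 hr with ⟨e', he', c⟩ | c | c
        · have z' := hZ e' he' r c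
          have b' := h1 e' he'
          have u' : β e' < r.2 ∧ r.2 < β (nx e') := z'.2.2.resolve_left (by linarith)
          have e0 : e' = e := by
            rcases lt_trichotomy e' e with h | h | h
            · have := hβ.monotone (hnx e' he' e he h); linarith
            · exact h
            · have := hα.antitone (hnx e he e' he' h); linarith
          subst e0
          exact (hW e' he).free p a q (loc2 e' he q hq (Or.inr ⟨by linarith, by linarith⟩)) r c
            a1 a2 a3 a4 a5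
        · linarith [(hin r c).2]
        · have : lc < r.1 := by
            obtain ⟨s, hs, rfl⟩ := c
            exact (hS s hs).1
          exact zz (upz q hq (by linarith) (by linarith)) c
    · have b := hin p a
      rcases up q hq (by linarith) with c | c
      · rcases up r hr (by linarith) with d | ⟨s, hs, d⟩
        · exact hΓ.free p a q c r d a1 a2 a3 a4 a5
        · subst d
          exact (hsafe s hs).2 p a q c a1 a2 a3 a4
      · have : l1 ≤ q.2 := by
          obtain ⟨s, hs, rfl⟩ := c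
          exact (h1 s (hSE hs)).2
        exact zz c (upz r hr (by linarith) (by linarith))
    · subst a
      have b1 := (hS s hs).1
      have b2 := (h1 s (hSE hs)).2
      simp only at a1 a3 a4
      exact zz (upz q hq (by linarith) (by linarith)) (upz r hr (by linarith) (by linarith))

/-- The top queue of open arcs. -/
def Zp (Y : Finset Pt) (g : ℚ) (z : Pt) : Prop :=
  g < z.2 ∧ ∀ z1 ∈ Y, ∀ z2 ∈ Y, g < z1.2 → g < z2.2 → z.1 ≤ z1.1 → z1.1 < z2.1 → z1.2 < z2.2

/-- Arcs below or attached to a lower open arc closing after `t`. -/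
def Low (Y : Finset Pt) (g t : ℚ) (y : Pt) : Prop :=
  ∃ r ∈ Y, g < r.2 ∧ ¬ Zp Y g r ∧ t < r.2 ∧
    (y.1 ≤ r.1 ∨ ∃ q ∈ Y, q.2 ≤ g ∧ q.1 < r.1 ∧ r.1 < q.2 ∧ y.1 < q.2)

section
variable {Y : Finset Pt} {g : ℚ}

lemma Zp.up {z y : Pt} (h : Zp Y g z) (h1 : g < y.2) (h2 : z.1 ≤ y.1) : Zp Y g y :=
  ⟨h1, fun z1 a1 z2 a2 a3 a4 a5 => h.2 z1 a1 z2 a2 a3 a4 (h2.trans a5)⟩

lemma Zp.above {z r : Pt} (h : Zp Y g z) (h1 : g < r.2) (h2 : ¬ Zp Y g r) : r.1 < z.1 :=
  not_le.1 (fun h3 => h2 (h.up h1 h3))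

lemma Low.a {t : ℚ} {y y' : Pt} (h : Low Y g t y') (h1 : y.1 ≤ y'.1) : Low Y g t y := by
  obtain ⟨r, a1, a2, a3, a4, a5 | ⟨q, b1, b2, b3, b4, b5⟩⟩ := h
  · exact ⟨r, a1, a2, a3, a4, Or.inl (h1.trans a5)⟩
  · exact ⟨r, a1, a2, a3, a4, Or.inr ⟨q, b1, b2, b3, b4, by linarith⟩⟩

lemma Low.b (hY : Good Y) {t : ℚ} {y y' : Pt} (hy : y ∈ Y) (h : Low Y g t y) (h0 : y.2 ≤ g)
    (h1 : y'.1 < y.2) : Low Y g t y' := by
  obtain ⟨r, a1, a2, a3, a4, a5⟩ := h
  refine ⟨r, a1, a2, a3, a4, ?_⟩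
  rcases le_or_gt y'.1 r.1 with u | u
  · exact Or.inl u
  right
  rcases hY.tri1 hy a1 with v | v | v
  · exact ⟨y, hy, h0, v, by linarith, h1⟩
  · rw [v] at h0; linarith
  · obtain ⟨q, b1, b2, b3, b4, b5⟩ := a5.resolve_left (not_le.2 v)
    refine ⟨q, b1, b2, b3, b4, ?_⟩
    by_contra hc
    exact hY.free q b1 y hy r a1 b3 v b5 (by linarith) (by linarith)

lemma Zp.notLow (hY : Good Y) {t : ℚ} {z : Pt} (hz : z ∈ Y) (h : Zp Y g z) : ¬ Low Y g t z := by
  rintro ⟨r, a1, a2, a3, -, a5⟩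
  have u := h.above a2 a3
  obtain ⟨q, b1, b2, b3, b4, b5⟩ := a5.resolve_left (not_le.2 u)
  refine a3 ⟨a2, fun z1 c1 z2 c2 c3 c4 c5 c6 => ?_⟩
  have fifo : ∀ x ∈ Y, g < x.2 → z1.1 < x.1 → x.1 < q.2 → z1.2 < x.2 := by
    intro x d1 d2 d3 d4
    rcases hY.tri2 c1 d1 with v | v | v
    · exact v
    · rw [v] at d3; linarith
    · exact (hY.free q b1 x d1 z1 c1 (by linarith) d3 d4 (by linarith) v).elim
  rcases le_or_gt z.1 z1.1 with v | v
  · exact h.2 z1 c1 z2 c2 c3 c4 v c6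
  · rcases lt_or_ge z2.1 q.2 with w | w
    · exact fifo z2 c2 c4 c6 w
    · exact (fifo z hz h.1 v b5).trans (h.2 z hz z2 c2 h.1 c4 le_rfl (by linarith))

lemma Low.opn (hY : Good Y) (hg : ∀ y ∈ Y, y.1 ≤ g) {y z : Pt} (hy : y ∈ Y) (hz : z ∈ Y)
    (h0 : g < y.2) (h : Zp Y g z) (h1 : Low Y g z.2 y) : z.2 < y.2 := by
  have h2 : ¬ Zp Y g y := fun e => e.notLow hY hy h1
  obtain ⟨r, a1, a2, a3, a4, a5⟩ := h1
  have u := h.above a2 a3
  rcases hY.tri2 hz hy with v | v | v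
  · exact v
  · exact (h2 (v ▸ h)).elim
  exfalso
  rcases hY.tri1 hy a1 with w | w | w
  · exact hY.free y hy z hz r a1 w u (by linarith [hg z hz]) v a4
  · rw [w] at v; linarith
  · obtain ⟨q, b1, b2, b3, b4, b5⟩ := a5.resolve_left (not_le.2 w)
    exact hY.free q b1 y hy r a1 b3 w b5 (by linarith) (by linarith)

lemma low_self {t : ℚ} {y : Pt} (hy : y ∈ Y) (h0 : g < y.2) (h : ¬ Zp Y g y) (h1 : t < y.2) :
    Low Y g t y := ⟨y, hy, h0, h, h1, Or.inl le_rfl⟩

lemma exists_zp (hY : Good Y) (h : ∃ y ∈ Y, g < y.2) : ∃ z ∈ Y, Zp Y g z := by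
  classical
  obtain ⟨y, hy, h0⟩ := h
  obtain ⟨z, hz, hmax⟩ := Finset.exists_max_image (Y.filter (g < ·.2)) Prod.fst
    ⟨y, Finset.mem_filter.2 ⟨hy, h0⟩⟩
  simp only [Finset.mem_filter] at hz hmax
  refine ⟨z, hz.1, hz.2, fun z1 _ z2 c2 _ c4 c5 c6 => ?_⟩
  have := hmax z2 ⟨c2, c4⟩
  have := hY.lt z hz.1
  linarith

end

end Pool.Agent.Lib.MP_276eaf_co
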