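import Mathlib
import Pool.Agent.Lib.MP_276eaf_co.StepA1

set_option autoImplicit false

namespace Pool.Agent.Lib.MP_276eaf_co

open Classical in
lemma stepA {σ X Y : Finset Pt} {g : ℚ} (hX : Inj X) (hX2 : No312 X) {x : Pt} (hx : x ∈ X)
    (hxm : ∀ p ∈ X, p.1 ≤ x.1) (hY : Good Y) (hg : ∀ y ∈ Y, y.1 ≤ g)
    (h1 : SA σ (X.erase x) Y g) (h2 : SA σ X (Y.filter (Low Y g g)) g)
    (h3 : SM σ (Y.filter fun y => ¬ Low Y g g y ∧ y.2 ≤ g)
      ((Y.filter (Zp Y g)).image Prod.fst)) : SA σ X Y g := by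
  intro l0 l1 r0 r1 hl hlr hr
  obtain ⟨lc, hlc0, hlc1⟩ := exists_between hl
  obtain ⟨Γ, S, gΓ, inΓ, inS, sΓ, HΓ⟩ := h3 lc l1 hlc1
  obtain ⟨E, hE⟩ : ∃ E : Finset ℚ, ∀ e, e ∈ E ↔ e = lc - 1 ∨ e = lc ∨ e = l1 ∨ e ∈ S :=
    ⟨insert (lc - 1) (insert lc (insert l1 S)), fun e => by simp only [Finset.mem_insert]⟩
  have hE1 : ∀ e ∈ E, lc - 1 ≤ e ∧ e < l1 + 1 := by
    intro e he
    rcases (hE e).1 he with h | h | h | h
    · exact ⟨by linarith, by linarith⟩
    · exact ⟨by linarith, by linarith⟩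
    · exact ⟨by linarith, by linarith⟩
    · exact ⟨by linarith [(inS e h).1], by linarith [(inS e h).2]⟩
  have eA : lc - 1 ∈ E := (hE _).2 (Or.inl rfl)
  have eB : lc ∈ E := (hE _).2 (Or.inr (Or.inl rfl))
  have eC : l1 ∈ E := (hE _).2 (Or.inr (Or.inr (Or.inl rfl)))
  have hSE : S ⊆ E := fun s hs => (hE _).2 (Or.inr (Or.inr (Or.inr hs)))
  obtain ⟨nx, hnx⟩ := exists_nx E (l1 + 1) (fun e he => (hE1 e he).2)
  obtain ⟨α0, hα0, hα1, hα2⟩ := exists_aff (lc - 1) (l1 + 1) (-lc) (-l0) (by linarith)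
    (by linarith)
  obtain ⟨α, hα, hαa, hαb⟩ : ∃ α : ℚ → ℚ, StrictAnti α ∧ α (lc - 1) = lc ∧ α (l1 + 1) = l0 :=
    ⟨fun t => -α0 t, fun s t h => neg_lt_neg (hα0 h), by simp [hα1], by simp [hα2]⟩
  obtain ⟨β, hβ, hβa, hβb⟩ := exists_aff (lc - 1) (l1 + 1) r0 r1 (by linarith) hr
  have bd : ∀ e ∈ E, l0 ≤ α (nx e) ∧ α (nx e) < α e ∧ α e ≤ lc ∧ r0 ≤ β e ∧ β e < β (nx e) ∧
      β (nx e) ≤ r1 := fun e he =>
    ⟨hαb ▸ hα.antitone (hnx e he).2.1, hα (hnx e he).1, hαa ▸ hα.antitone (hE1 e he).1,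
      hβa ▸ hβ.monotone (hE1 e he).1, hβ (hnx e he).1, hβb ▸ hβ.monotone (hnx e he).2.1⟩
  have : ∀ e ∈ E, ∃ W, Good W ∧ Zone W (α (nx e)) (α e) (β e) (β (nx e)) ∧ ∀ c : Pt → Prop,
      Red σ W c ∨ (∃ f, Emb X W c f ∧ ∀ y ∈ X, β e < (f y).2) ∨
      (∃ f, Emb Y W (fun p => ¬ c p) f ∧
        ∀ y ∈ Y, (y.2 ≤ g → (f y).2 < α e) ∧ (g < y.2 → β e < (f y).2)) ∨
      (((e = lc - 1 ∨ e = l1) → ∃ f, Emb (X.erase x) W c f ∧ ∀ y ∈ X.erase x, β e < (f y).2) ∧
       (¬ (e = lc - 1 ∨ e = l1) → ∃ f, Emb (Y.filter (Low Y g g)) W (fun p => ¬ c p) f ∧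
        ∀ y ∈ Y.filter (Low Y g g), (y.2 ≤ g → (f y).2 < α e) ∧ (g < y.2 → β e < (f y).2))) := by
    intro e he
    obtain ⟨b1, b2, b3, b4, b5, b6⟩ := bd e he
    by_cases h : e = lc - 1 ∨ e = l1
    · obtain ⟨W, w1, w2, w3⟩ := h1 _ _ _ _ b2 (by linarith) b5
      refine ⟨W, w1, w2, fun c => ?_⟩
      rcases w3 c with u | u | u
      · exact Or.inl u
      · exact Or.inr (Or.inr (Or.inr ⟨fun _ => u, fun h' => absurd h h'⟩))
      · exact Or.inr (Or.inr (Or.inl u))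
    · obtain ⟨W, w1, w2, w3⟩ := h2 _ _ _ _ b2 (by linarith) b5
      refine ⟨W, w1, w2, fun c => ?_⟩
      rcases w3 c with u | u | u
      · exact Or.inl u
      · exact Or.inr (Or.inl u)
      · exact Or.inr (Or.inr (Or.inr ⟨fun h' => absurd h' h, fun _ => u⟩))
  choose! W gW zW HW using this
  have mem : ∀ p, p ∈ E.biUnion W ∪ (Γ ∪ S.image (fun s => (s, β s))) ↔
      (∃ e ∈ E, p ∈ W e) ∨ p ∈ Γ ∨ ∃ s ∈ S, (s, β s) = p := by simp
  have subW : ∀ e ∈ E, W e ⊆ E.biUnion W ∪ (Γ ∪ S.image (fun s => (s, β s))) :=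
    fun e he p hp => (mem p).2 (Or.inl ⟨e, he, hp⟩)
  have subΓ : Γ ⊆ E.biUnion W ∪ (Γ ∪ S.image (fun s => (s, β s))) :=
    fun p hp => (mem p).2 (Or.inr (Or.inl hp))
  have memζ : ∀ s ∈ S, (s, β s) ∈ E.biUnion W ∪ (Γ ∪ S.image (fun s => (s, β s))) :=
    fun s hs => (mem _).2 (Or.inr (Or.inr ⟨s, hs, rfl⟩))
  have sepL : ∀ e ∈ E, ∀ e' ∈ E, e < e' → α e' ≤ α (nx e) := fun e he e' he' h =>
    hα.antitone ((hnx e he).2.2 e' he' h)
  have sepR : ∀ e ∈ E, ∀ e' ∈ E, e < e' → β (nx e) ≤ β e' := fun e he e' he' h =>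
    hβ.monotone ((hnx e he).2.2 e' he' h)
  have opn : ∀ e ∈ E, ∀ p ∈ W e, β e < p.2 → p.2 < β (nx e) := by
    intro e he p hp h
    obtain ⟨b1, b2, b3, b4, b5, b6⟩ := bd e he
    rcases (zW e he p hp).2.2 with u | u
    · linarith
    · exact u.2
  refine ⟨_, good_per hα hβ gW zW (fun e he => (hnx e he).2.2)
    (fun e he => ⟨(bd e he).2.2.1, hlr.trans (bd e he).2.2.2.1⟩) hlc1 gΓ inΓ hSE inS sΓ, ?_,
    fun c => ?_⟩
  · intro p hp
    rcases (mem p).1 hp with ⟨e, he, a⟩ | a | ⟨s, hs, a⟩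
    · obtain ⟨b1, b2, b3, b4, b5, b6⟩ := bd e he
      obtain ⟨z1, z2, z3⟩ := zW e he p a
      refine ⟨by linarith, by linarith, ?_⟩
      rcases z3 with u | u
      · exact Or.inl (by linarith)
      · exact Or.inr ⟨by linarith, by linarith⟩
    · have b := inΓ p a
      exact ⟨by linarith, by linarith [gΓ.lt p a], Or.inl b.2⟩
    · subst a
      have b := inS s hs
      exact ⟨by linarith, b.2, Or.inr ⟨hβa ▸ hβ (by linarith), hβb ▸ hβ (by linarith)⟩⟩
  by_cases k1 : ∃ e ∈ E, Red σ (W e) c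
  · obtain ⟨e, he, h⟩ := k1
    exact Or.inl (h.mono (subW e he))
  by_cases k2 : ∃ e ∈ E, ∃ f, Emb X (W e) c f ∧ ∀ y ∈ X, β e < (f y).2
  · obtain ⟨e, he, f, h, h'⟩ := k2
    exact Or.inr (Or.inl ⟨f, h.mono (subW e he),
      fun y hy => (bd e he).2.2.2.1.trans_lt (h' y hy)⟩)
  by_cases k3 : ∃ e ∈ E, ∃ f, Emb Y (W e) (fun p => ¬ c p) f ∧
      ∀ y ∈ Y, (y.2 ≤ g → (f y).2 < α e) ∧ (g < y.2 → β e < (f y).2)
  · obtain ⟨e, he, f, h, h'⟩ := k3
    exact Or.inr (Or.inr ⟨f, h.mono (subW e he), fun y hy =>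
      ⟨fun a => by linarith [(h' y hy).1 a, (bd e he).2.2.1],
       fun a => (bd e he).2.2.2.1.trans_lt ((h' y hy).2 a)⟩⟩)
  have HW' := fun e (he : e ∈ E) => (((HW e he c).resolve_left (fun h => k1 ⟨e, he, h⟩)).resolve_left
    (fun h => k2 ⟨e, he, h⟩)).resolve_left (fun h => k3 ⟨e, he, h⟩)
  by_cases k4 : ∃ s ∈ S, c (s, β s)
  · obtain ⟨s, hs, hc⟩ := k4
    obtain ⟨f1, a1, a1'⟩ := (HW' _ eA).1 (Or.inl rfl)
    obtain ⟨f2, a2, a2'⟩ := (HW' _ eC).1 (Or.inr rfl)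
    have b := inS s hs
    have me : ∀ y ∈ X, y ≠ x → y ∈ X.erase x := fun y hy h => Finset.mem_erase.2 ⟨h, hy⟩
    have q1 : ∀ y ∈ X, y ≠ x → α l1 < (f1 y).1 ∧ (f1 y).1 < s ∧ r0 < (f1 y).2 ∧
        (f1 y).2 < β s := by
      intro y hy h
      have m := a1.mem y (me y hy h)
      have z := zW _ eA _ m
      have u := a1' y (me y hy h)
      exact ⟨by linarith [sepL _ eA _ eC (by linarith), z.1], by linarith [z.2.1], by linarith,
        by linarith [opn _ eA _ m u, sepR _ eA _ (hSE hs) (by linarith)]⟩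
    have q2 : ∀ y ∈ X, y ≠ x → (f2 y).1 < α l1 ∧ β s < (f2 y).2 := by
      intro y hy h
      have z := zW _ eC _ (a2.mem y (me y hy h))
      exact ⟨z.2.1, (hβ b.2).trans (a2' y (me y hy h))⟩
    have q3 : α l1 ≤ lc := (bd _ eC).2.2.1
    have q4 : r0 < β s := hβa ▸ hβ (by linarith)
    refine Or.inr (Or.inl ⟨fun y => if y = x then (s, β s) else if y.2 < x.2 then f1 y else f2 y,
      ⟨?_, ?_, ?_, ?_⟩, ?_⟩)
    · intro y hy
      split_ifs with h h'
      exacts [memζ s hs, subW _ eA (a1.mem y (me y hy h)), subW _ eC (a2.mem y (me y hy h))]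
    · intro y hy
      split_ifs with h h'
      exacts [hc, a1.col y (me y hy h), a2.col y (me y hy h)]
    · intro y hy y' hy' a
      have n1 : y ≠ x := fun e => by rw [e] at a; linarith [hxm y' hy']
      rw [if_neg n1]
      by_cases n2 : y' = x
      · rw [if_pos n2]
        split_ifs with h
        · exact (q1 y hy n1).2.1
        · linarith [(q2 y hy n1).1]
      · rw [if_neg n2]
        split_ifs with h h' h'
        · exact a1.m1 y (me y hy n1) y' (me y' hy' n2) a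
        · exfalso
          rcases hX.tri1 hy' hx with u | u | u
          · rcases hX.tri2 hx hy' with v | v | v
            · exact hX2 y hy x hx y' hy' a u h v
            · exact n2 v.symm
            · exact h' v
          · exact n2 u
          · linarith [hxm y' hy']
        · linarith [(q2 y hy n1).1, (q1 y' hy' n2).1]
        · exact a2.m1 y (me y hy n1) y' (me y' hy' n2) a
    · intro y hy y' hy' a
      by_cases n1 : y = x
      · have n2 : y' ≠ x := fun e => by rw [e, n1] at a; linarith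
        rw [if_pos n1, if_neg n2, if_neg (by rw [n1] at a; linarith)]
        exact (q2 y' hy' n2).2
      · rw [if_neg n1]
        by_cases n2 : y' = x
        · rw [if_pos n2, if_pos (n2 ▸ a)]
          exact (q1 y hy n1).2.2.2
        · rw [if_neg n2]
          split_ifs with h h' h'
          · exact a1.m2 y (me y hy n1) y' (me y' hy' n2) a
          · linarith [(q1 y hy n1).2.2.2, (q2 y' hy' n2).2]
          · exact absurd (a.trans h') h
          · exact a2.m2 y (me y hy n1) y' (me y' hy' n2) a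
    · intro y hy
      simp only
      split_ifs with h h'
      · exact q4
      · exact (q1 y hy h).2.2.1
      · exact q4.trans (q2 y hy h).2
  rcases HΓ c with h | ⟨ψ, m, hψ, hm1, hm2, hm3⟩
  · exact Or.inl (h.mono subΓ)
  right; right
  choose! φ hφ hφ' using fun e (he : e ∈ E) => (HW' e he).2
  have mZ : ∀ z ∈ Y, Zp Y g z → z.1 ∈ (Y.filter (Zp Y g)).image Prod.fst := fun z a b =>
    Finset.mem_image.2 ⟨z, Finset.mem_filter.2 ⟨a, b⟩, rfl⟩
  have mL : ∀ y ∈ Y, Low Y g g y → y ∈ Y.filter (Low Y g g) := fun y a b =>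
    Finset.mem_filter.2 ⟨a, b⟩
  have mK : ∀ y ∈ Y, ¬ Low Y g g y → y.2 ≤ g →
      y ∈ Y.filter fun y => ¬ Low Y g g y ∧ y.2 ≤ g := fun y a b d => Finset.mem_filter.2 ⟨a, b, d⟩
  have isZ : ∀ y ∈ Y, ¬ Low Y g g y → ¬ y.2 ≤ g → Zp Y g y := fun y a b d => by
    by_contra hc
    exact b (low_self a (not_le.1 d) hc (not_le.1 d))
  have mS : ∀ z ∈ Y, Zp Y g z → m z.1 ∈ S := fun z a b => hm1 _ (mZ z a b)
  have fifo : ∀ z ∈ Y, Zp Y g z → ∀ z' ∈ Y, Zp Y g z' → z.2 < z'.2 → m z.1 < m z'.1 := by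
    intro z a b z' a' b' h
    refine hm2 _ (mZ z a b) _ (mZ z' a' b') ?_
    rcases hY.tri1 a a' with u | u | u
    · exact u
    · rw [u] at h; linarith
    · linarith [b'.2 z' a' z a b'.1 b.1 le_rfl u]
  obtain ⟨ε, hε, hεm⟩ := exists_anchor lc S
    (fun (y : Pt) s => ∃ z ∈ Y, Zp Y g z ∧ Low Y g z.2 y ∧ m z.1 = s)
  have hεE : ∀ y, ε y ∈ E ∧ ¬ (ε y = lc - 1 ∨ ε y = l1) := fun y => by
    rcases (hε y).2.2 with h | h
    · rw [h]
      exact ⟨eB, fun u => by rcases u with u | u <;> linarith⟩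
    · have b := inS _ h.1
      exact ⟨hSE h.1, fun u => by rcases u with u | u <;> linarith⟩
  have emb := fun y => hφ _ (hεE y).1 (hεE y).2
  have loc : ∀ y ∈ Y, Low Y g g y → α (nx (ε y)) < (φ (ε y) y).1 ∧ (φ (ε y) y).1 < α (ε y) ∧
      (φ (ε y) y).1 < (φ (ε y) y).2 ∧ α (ε y) ≤ lc ∧ (y.2 ≤ g → (φ (ε y) y).2 < α (ε y)) ∧
      (g < y.2 → r0 ≤ β (ε y) ∧ β (ε y) < (φ (ε y) y).2 ∧ (φ (ε y) y).2 < β (nx (ε y))) := by
    intro y a b
    have m0 := (emb y).mem y (mL y a b)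
    have z := zW _ (hεE y).1 _ m0
    have u := hφ' _ (hεE y).1 (hεE y).2 y (mL y a b)
    exact ⟨z.1, z.2.1, (gW _ (hεE y).1).lt _ m0, (bd _ (hεE y).1).2.2.1, u.1,
      fun d => ⟨(bd _ (hεE y).1).2.2.2.1, u.2 d, opn _ (hεE y).1 _ m0 (u.2 d)⟩⟩
  have locK : ∀ y ∈ Y, ¬ Low Y g g y → y.2 ≤ g → lc < (ψ y).1 ∧ (ψ y).1 < (ψ y).2 ∧
      (ψ y).2 < l1 := fun y a b d =>
    have u := hψ.mem y (mK y a b d)
    ⟨(inΓ _ u).1, gΓ.lt _ u, (inΓ _ u).2⟩
  have locZ : ∀ z ∈ Y, Zp Y g z → lc < m z.1 ∧ r0 < β (m z.1) := fun z a b =>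
    have u := inS _ (mS z a b)
    ⟨u.1, hβa ▸ hβ (by linarith)⟩
  refine ⟨fun y => if Low Y g g y then φ (ε y) y else if y.2 ≤ g then ψ y else (m y.1, β (m y.1)),
    ⟨?_, ?_, ?_, ?_⟩, ?_⟩
  · intro y hy
    split_ifs with h h'
    exacts [subW _ (hεE y).1 ((emb y).mem y (mL y hy h)), subΓ (hψ.mem y (mK y hy h h')),
      memζ _ (mS y hy (isZ y hy h h'))]
  · intro y hy
    split_ifs with h h'
    exacts [(emb y).col y (mL y hy h), hψ.col y (mK y hy h h'),
      fun hc => k4 ⟨_, mS y hy (isZ y hy h h'), hc⟩]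
  · intro y hy y' hy' a
    by_cases h : Low Y g g y
    · rw [if_pos h]
      have b := loc y hy h
      split_ifs with h' h''
      · have e0 : ε y' ≤ ε y := hεm y' y (fun s _ ⟨z, u1, u2, u3, u4⟩ => ⟨z, u1, u2, u3.a a.le, u4⟩)
        rcases e0.eq_or_lt with e1 | e1
        · rw [e1]
          exact (emb y).m1 y (mL y hy h) y' (mL y' hy' h') a
        · linarith [sepL _ (hεE y').1 _ (hεE y).1 e1, (loc y' hy' h').1]
      · linarith [(locK y' hy' h' h'').1]
      · linarith [(locZ y' hy' (isZ y' hy' h' h'')).1]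
    · have h' : ¬ Low Y g g y' := fun u => h (u.a a.le)
      rw [if_neg h, if_neg h']
      split_ifs with d d' d'
      · exact hψ.m1 y (mK y hy h d) y' (mK y' hy' h' d') a
      · exact (hm3 _ (mZ y' hy' (isZ y' hy' h' d')) y (mK y hy h d)).2 a
      · exact (hm3 _ (mZ y hy (isZ y hy h d)) y' (mK y' hy' h' d')).1 a
      · exact hm2 _ (mZ y hy (isZ y hy h d)) _ (mZ y' hy' (isZ y' hy' h' d')) a
  · intro y hy y' hy' a
    by_cases h : Low Y g g y
    · rw [if_pos h]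
      have b := loc y hy h
      split_ifs with h' h''
      · have b' := loc y' hy' h'
        rcases le_or_gt y'.2 g with d' | d'
        · have e0 : ε y' ≤ ε y := hεm y' y (fun s _ ⟨z, u1, u2, u3, u4⟩ =>
            ⟨z, u1, u2, u3.b hY hy' d' ((hY.lt y hy).trans a), u4⟩)
          rcases e0.eq_or_lt with e1 | e1
          · rw [e1]
            exact (emb y).m2 y (mL y hy h) y' (mL y' hy' h') a
          · linarith [sepL _ (hεE y').1 _ (hεE y).1 e1, b.2.2.2.2.1 (by linarith)]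
        · rcases le_or_gt y.2 g with d | d
          · linarith [b.2.2.2.2.1 d, (b'.2.2.2.2.2 d').1, (b'.2.2.2.2.2 d').2.1]
          · have e0 : ε y ≤ ε y' := hεm y y' (fun s _ ⟨z, u1, u2, u3, u4⟩ =>
              ⟨z, u1, u2, low_self hy' d' (fun v => v.notLow hY hy' h')
                ((u3.opn hY hg hy u1 d u2).trans a), u4⟩)
            rcases e0.eq_or_lt with e1 | e1
            · rw [← e1]
              exact (emb y).m2 y (mL y hy h) y' (mL y' hy' h') a
            · linarith [sepR _ (hεE y).1 _ (hεE y').1 e1, (b.2.2.2.2.2 d).2.2,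
                (b'.2.2.2.2.2 d').2.1]
      · have b' := locK y' hy' h' h''
        linarith [b.2.2.2.2.1 (by linarith)]
      · have z' := isZ y' hy' h' h''
        have b' := locZ y' hy' z'
        simp only
        rcases le_or_gt y.2 g with d | d
        · linarith [b.2.2.2.2.1 d]
        · have e0 : ε y < m y'.1 := by
            rcases (hε y).2.2 with u | ⟨-, z, u1, u2, u3, u4⟩
            · linarith
            · rw [← u4]
              exact fifo z u1 u2 y' hy' z' ((u3.opn hY hg hy u1 d u2).trans a)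
          linarith [sepR _ (hεE y).1 _ (hSE (mS y' hy' z')) e0, (b.2.2.2.2.2 d).2.2]
    · rw [if_neg h]
      by_cases h' : Low Y g g y'
      · rw [if_pos h']
        have b' := loc y' hy' h'
        have d' : g < y'.2 := by
          by_contra hc
          exact h (h'.b hY hy' (not_lt.1 hc) ((hY.lt y hy).trans a))
        have b'' := b'.2.2.2.2.2 d'
        split_ifs with d
        · linarith [(locK y hy h d).2.2]
        · have z := isZ y hy h d
          have e0 := (hε y').1 _ (mS y hy z)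
            ⟨y, hy, z, low_self hy' d' (fun v => v.notLow hY hy' h') a, rfl⟩
          simp only
          linarith [hβ.monotone e0]
      · rw [if_neg h']
        split_ifs with d d' d'
        · exact hψ.m2 y (mK y hy h d) y' (mK y' hy' h' d') a
        · simp only
          linarith [(locK y hy h d).2.2, (locZ y' hy' (isZ y' hy' h' d')).2]
        · exact absurd (a.le.trans d') d
        · exact hβ (fifo y hy (isZ y hy h d) y' hy' (isZ y' hy' h' d') a)
  · intro y hy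
    simp only
    split_ifs with h h'
    · have b := loc y hy h
      exact ⟨fun d => by linarith [b.2.2.2.2.1 d],
        fun d => by linarith [(b.2.2.2.2.2 d).1, (b.2.2.2.2.2 d).2.1]⟩
    · exact ⟨fun _ => (locK y hy h h').2.2, fun d => absurd h' (not_le.2 d)⟩
    · exact ⟨fun d => absurd d h', fun _ => (locZ y hy (isZ y hy h h')).2⟩

end Pool.Agent.Lib.MP_276eaf_co
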