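import Mathlib
import Pool.Agent.Lib.MP_276eaf_co.Pts

set_option autoImplicit false

namespace Pool.Agent.Lib.MP_276eaf_co

lemma good_empty : Good ∅ := ⟨⟨by simp, by simp⟩, by simp, by simp⟩

lemma emb_empty (T : Finset Pt) (c : Pt → Prop) : Emb ∅ T c id :=
  ⟨by simp, by simp, by simp, by simp⟩

lemma sa_nilX (σ Y : Finset Pt) (g : ℚ) : SA σ ∅ Y g := fun _ _ _ _ _ _ _ =>
  ⟨∅, good_empty, by simp [Zone], fun c => Or.inr (Or.inl ⟨id, emb_empty _ _, by simp⟩)⟩

lemma sa_nilY (σ X : Finset Pt) (g : ℚ) : SA σ X ∅ g := fun _ _ _ _ _ _ _ =>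
  ⟨∅, good_empty, by simp [Zone], fun c => Or.inr (Or.inr ⟨id, emb_empty _ _, by simp⟩)⟩

lemma sm_of_sa {σ K : Finset Pt} {g : ℚ} (h : SA σ σ K g) : SM σ K ∅ := by
  intro l0 l1 hl
  obtain ⟨T, h1, h2, h3⟩ := h l0 ((l0 + l1) / 2) ((l0 + l1) / 2) l1 (by linarith) le_rfl
    (by linarith)
  refine ⟨T, ∅, h1, fun p hp => ⟨(h2 p hp).1, ?_⟩, by simp, by simp [Safe], fun c => ?_⟩
  · rcases (h2 p hp).2.2 with e | e
    · linarith
    · exact e.2
  · rcases h3 c with e | ⟨f, e1, e2⟩ | ⟨f, e1, -⟩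
    · exact Or.inl e
    · exact Or.inl ⟨f, _, e1, fun y hy => ⟨(h2 _ (e1.mem y hy)).2.1, e2 y hy⟩⟩
    · exact Or.inr ⟨f, id, e1, by simp, by simp, by simp⟩

lemma sa_of_sm {σ X Y : Finset Pt} {g : ℚ} (hg : ∀ y ∈ Y, y.2 ≤ g) (h : SM σ Y ∅) :
    SA σ X Y g := by
  intro l0 l1 r0 r1 hl _ _
  obtain ⟨T, S, h1, h2, -, -, h3⟩ := h l0 l1 hl
  refine ⟨T, h1, fun p hp => ⟨(h2 p hp).1, (h1.lt p hp).trans (h2 p hp).2, Or.inl (h2 p hp).2⟩,
    fun c => ?_⟩
  rcases h3 c with e | ⟨f, m, e, -⟩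
  · exact Or.inl e
  · exact Or.inr (Or.inr ⟨f, e, fun y hy => ⟨fun _ => (h2 _ (e.mem y hy)).2,
      fun h => absurd (hg y hy) (not_le.2 h)⟩⟩)

open Classical in
lemma stepM {σ K : Finset Pt} {S : Finset ℚ} (hK : Good K) (hS : Safe K S) {m1 : ℚ}
    (hm : m1 ∈ S) (hmin : ∀ s ∈ S, m1 ≤ s) (h1 : SA σ σ (K.filter (·.1 < m1)) m1)
    (h2 : SM σ (K.filter (m1 < ·.1)) (S.erase m1)) : SM σ K S := by
  intro l0 l1 hl
  obtain ⟨la, hla0, hla1⟩ := exists_between hl
  obtain ⟨T0, g0, z0, H0⟩ := h1 l0 la la l1 hla0 le_rfl hla1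
  obtain ⟨E, hE⟩ : ∃ E : Finset ℚ, ∀ e, e ∈ E ↔ e = la ∨ ∃ p ∈ T0, la < p.2 ∧ p.2 = e :=
    ⟨insert la ((T0.filter (la < ·.2)).image Prod.snd), fun e => by
      simp only [Finset.mem_insert, Finset.mem_image, Finset.mem_filter, and_assoc]⟩
  have hE1 : ∀ e ∈ E, la ≤ e ∧ e < l1 := by
    intro e he
    rcases (hE e).1 he with h | ⟨p, hp, a1, a2⟩
    · rw [h]; exact ⟨le_rfl, hla1⟩
    · rcases (z0 p hp).2.2 with b | b
      · linarith
      · exact ⟨by linarith, by linarith⟩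
  have hla : la ∈ E := (hE la).2 (Or.inl rfl)
  obtain ⟨nx, hnx⟩ := exists_nx E l1 (fun e he => (hE1 e he).2)
  choose! F SS gF inF inS sF HF using fun e (he : e ∈ E) => h2 e (nx e) (hnx e he).1
  have hgap : ∀ e ∈ E, ∀ p ∈ T0, (p.1 ≤ e ∨ nx e ≤ p.1) ∧ (p.2 ≤ e ∨ nx e ≤ p.2) := by
    intro e he p hp
    have a := hE1 e he
    refine ⟨Or.inl (by linarith [(z0 p hp).2.1]), ?_⟩
    rcases le_or_gt p.2 e with b | b
    · exact Or.inl b
    · exact Or.inr ((hnx e he).2.2 _ ((hE _).2 (Or.inr ⟨p, hp, by linarith, rfl⟩)) b)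
  have key : ∀ e ∈ E, ∀ e' ∈ E, ∀ t : ℚ, e < t → t < nx e → e' < t → t < nx e' → e = e' := by
    intro e he e' he' t a1 a2 a3 a4
    rcases lt_trichotomy e e' with h | h | h
    · have := (hnx e he).2.2 e' he' h; linarith
    · exact h
    · have := (hnx e' he').2.2 e he h; linarith
  have mem : ∀ p, p ∈ T0 ∪ E.biUnion F ↔ p ∈ T0 ∨ ∃ e ∈ E, p ∈ F e := by simp
  have memS : ∀ s, s ∈ insert la (E.biUnion SS) ↔ s = la ∨ ∃ e ∈ E, s ∈ SS e := by simp
  have subF : ∀ e ∈ E, F e ⊆ T0 ∪ E.biUnion F := fun e he p hp => (mem p).2 (Or.inr ⟨e, he, hp⟩)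
  refine ⟨T0 ∪ E.biUnion F, insert la (E.biUnion SS),
    good_gap g0 gF inF (fun e he => (hnx e he).2.2) hgap, ?_, ?_, ?_, fun c => ?_⟩
  · intro p hp
    rcases (mem p).1 hp with h | ⟨e, he, h⟩
    · refine ⟨(z0 p h).1, ?_⟩
      rcases (z0 p h).2.2 with b | b
      · linarith
      · exact b.2
    · have a1 := inF e he p h
      have a2 := hE1 e he
      have a3 := (hnx e he).2.1
      exact ⟨by linarith, by linarith⟩
  · intro s hs
    rcases (memS s).1 hs with h | ⟨e, he, h⟩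
    · rw [h]; exact ⟨hla0, hla1⟩
    · have a1 := inS e he s h
      have a2 := hE1 e he
      have a3 := (hnx e he).2.1
      exact ⟨by linarith, by linarith⟩
  · intro s hs
    have hs0 : la ≤ s := by
      rcases (memS s).1 hs with h | ⟨e, he, h⟩
      · exact h.ge
      · linarith [(inS e he s h).1, (hE1 e he).1]
    have hs1 : ∀ e ∈ E, e < s → s < nx e → s ∈ SS e := by
      intro e he a1 a2
      rcases (memS s).1 hs with h | ⟨e', he', h⟩
      · linarith [(hE1 e he).1]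
      · rwa [key e he e' he' s a1 a2 (inS e' he' s h).1 (inS e' he' s h).2]
    constructor
    · intro p hp h
      rcases (mem p).1 hp with h' | ⟨e, he, h'⟩
      · linarith [(z0 p h').2.1]
      · have a1 := inF e he p h'
        have a2 := (gF e he).lt p h'
        exact (sF e he s (hs1 e he (by linarith) (by linarith))).1 p h' h
    · intro p hp q hq a1 a2 a3 a4
      rcases (mem q).1 hq with h' | ⟨e, he, h'⟩
      · linarith [(z0 q h').2.1]
      · have b1 := inF e he q h'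
        rcases (mem p).1 hp with h | ⟨e', he', h⟩
        · rcases (hgap e he p h).2 with b | b <;> linarith
        · have b2 := inF e' he' p h
          have e0 := key e he e' he' p.2 (by linarith) (by linarith) (by linarith) b2.2
          subst e0
          exact (sF e he s (hs1 e he (by linarith) (by linarith))).2 p h q h' a1 a2 a3 a4
  · by_cases hr : ∃ e ∈ E, Red σ (F e) c
    · obtain ⟨e, he, h⟩ := hr
      exact Or.inl (h.mono (subF e he))
    rcases H0 c with h | ⟨f, h, h'⟩ | ⟨f, hf, hf'⟩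
    · exact Or.inl (h.mono Finset.subset_union_left)
    · exact Or.inl ⟨f, la, h.mono Finset.subset_union_left,
        fun y hy => ⟨(z0 _ (h.mem y hy)).2.1, h' y hy⟩⟩
    right
    choose! φ μ hφ hμ1 hμ2 hμ3 using fun e (he : e ∈ E) =>
      (HF e he c).resolve_left (fun h => hr ⟨e, he, h⟩)
    obtain ⟨ε, hε, hεm⟩ := exists_anchor la E
      (fun t x => ∃ p ∈ K, p.1 < m1 ∧ m1 < p.2 ∧ p.2 < t ∧ (f p).2 = x)
    have hεE : ∀ t, ε t ∈ E := fun t => by
      rcases (hε t).2.2 with h | h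
      · rw [h]; exact hla
      · exact h.1
    have mono : ∀ t t', t ≤ t' → ε t ≤ ε t' := fun t t' h =>
      hεm t t' (fun x _ ⟨p, a1, a2, a3, a4, a5⟩ => ⟨p, a1, a2, a3, by linarith, a5⟩)
    have jump : ∀ q ∈ K, m1 < q.1 → ∀ t, q.1 < t → ε q.2 ≤ ε t := by
      intro q hq a t b
      refine hεm _ _ (fun x _ ⟨p, a1, a2, a3, a4, a5⟩ => ⟨p, a1, a2, a3, ?_, a5⟩)
      by_contra hc
      exact (hS m1 hm).2 p a1 q hq a2 a (by linarith) a4
    have mD : ∀ p ∈ K, p.1 < m1 → p ∈ K.filter (·.1 < m1) := fun p a b =>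
      Finset.mem_filter.2 ⟨a, b⟩
    have m2 : ∀ p ∈ K, ¬ p.1 < m1 → m1 < p.1 ∧ p ∈ K.filter (m1 < ·.1) := fun p a b => by
      have : m1 < p.1 := lt_of_le_of_ne (not_lt.1 b) ((hS m1 hm).1 p a).symm
      exact ⟨this, Finset.mem_filter.2 ⟨a, this⟩⟩
    have mS : ∀ s ∈ S, s ≠ m1 → m1 < s ∧ s ∈ S.erase m1 := fun s a b =>
      ⟨lt_of_le_of_ne (hmin s a) b.symm, Finset.mem_erase.2 ⟨b, a⟩⟩
    have locq : ∀ q ∈ K, ¬ q.1 < m1 → ∀ e ∈ E, e < (φ e q).1 ∧ (φ e q).1 < (φ e q).2 ∧
        (φ e q).2 < nx e := fun q a b e he =>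
      have h := (hφ e he).mem q (m2 q a b).2
      ⟨(inF e he _ h).1, (gF e he).lt _ h, (inF e he _ h).2⟩
    have locs : ∀ s ∈ S, s ≠ m1 → ∀ e ∈ E, e < μ e s ∧ μ e s < nx e := fun s a b e he =>
      inS e he _ (hμ1 e he s (mS s a b).2)
    have sep : ∀ t t', ε t < ε t' → nx (ε t) ≤ ε t' := fun t t' h =>
      (hnx _ (hεE t)).2.2 _ (hεE t') h
    refine ⟨fun q => if q.1 < m1 then f q else φ (ε q.2) q,
      fun s => if s = m1 then la else μ (ε s) s, ⟨?_, ?_, ?_, ?_⟩, ?_, ?_, ?_⟩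
    · intro y hy
      split_ifs with h
      · exact Finset.mem_union_left _ (hf.mem y (mD y hy h))
      · exact subF _ (hεE _) ((hφ _ (hεE _)).mem y (m2 y hy h).2)
    · intro y hy
      split_ifs with h
      · exact hf.col y (mD y hy h)
      · exact (hφ _ (hεE _)).col y (m2 y hy h).2
    · intro y hy y' hy' a
      split_ifs with h h' h'
      · exact hf.m1 y (mD y hy h) y' (mD y' hy' h') a
      · have b1 := (z0 _ (hf.mem y (mD y hy h))).2.1
        have b2 := locq y' hy' h' _ (hεE y'.2)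
        linarith [(hE1 _ (hεE y'.2)).1]
      · exact absurd (a.trans h') h
      · have b := jump y hy (m2 y hy h).1 y'.2 (a.trans (hK.lt y' hy'))
        rcases b.eq_or_lt with b | b
        · rw [b]
          exact (hφ _ (hεE _)).m1 y (m2 y hy h).2 y' (m2 y' hy' h').2 a
        · have b1 := locq y hy h _ (hεE y.2)
          have b2 := locq y' hy' h' _ (hεE y'.2)
          linarith [sep _ _ b]
    · intro y hy y' hy' a
      split_ifs with h h' h'
      · exact hf.m2 y (mD y hy h) y' (mD y' hy' h') a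
      · have b2 := locq y' hy' h' _ (hεE y'.2)
        rcases le_or_gt y.2 m1 with b | b
        · have b1 := (hf' y (mD y hy h)).1 b
          linarith [(hE1 _ (hεE y'.2)).1]
        · have b1 := (hf' y (mD y hy h)).2 b
          have b3 := (hε y'.2).1 _ ((hE _).2 (Or.inr ⟨f y, hf.mem y (mD y hy h), b1, rfl⟩))
            ⟨y, hy, h, b, a, rfl⟩
          linarith
      · have b2 := locq y hy h _ (hεE y.2)
        have b : m1 < y'.2 := by linarith [(m2 y hy h).1, hK.lt y hy]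
        have b1 := (hf' y' (mD y' hy' h')).2 b
        have b3 : ε y.2 < (f y').2 := by
          rcases (hε y.2).2.2 with u | ⟨-, p, u1, u2, u3, u4, u5⟩
          · linarith
          · rw [← u5]
            exact hf.m2 p (mD p u1 u2) y' (mD y' hy' h') (u4.trans a)
        have b4 := (hnx _ (hεE y.2)).2.2 _
          ((hE _).2 (Or.inr ⟨f y', hf.mem y' (mD y' hy' h'), b1, rfl⟩)) b3
        linarith
      · rcases (mono _ _ a.le).eq_or_lt with b | b
        · rw [b]
          exact (hφ _ (hεE _)).m2 y (m2 y hy h).2 y' (m2 y' hy' h').2 a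
        · have b1 := locq y hy h _ (hεE y.2)
          have b2 := locq y' hy' h' _ (hεE y'.2)
          linarith [sep _ _ b]
    · intro s hs
      simp only
      split_ifs with h
      · exact (memS _).2 (Or.inl rfl)
      · exact (memS _).2 (Or.inr ⟨_, hεE s, hμ1 _ (hεE s) s (mS s hs h).2⟩)
    · intro s hs s' hs' a
      simp only
      split_ifs with h h' h'
      · linarith
      · linarith [(locs s' hs' h' _ (hεE s')).1, (hE1 _ (hεE s')).1]
      · linarith [hmin s hs]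
      · rcases (mono _ _ a.le).eq_or_lt with b | b
        · rw [b]
          exact hμ2 _ (hεE _) s (mS s hs h).2 s' (mS s' hs' h').2 a
        · linarith [sep _ _ b, (locs s hs h _ (hεE s)).2, (locs s' hs' h' _ (hεE s')).1]
    · intro s hs y hy
      simp only
      have a0 := hmin s hs
      split_ifs with h h' h'
      · exact ⟨fun a => by linarith, fun _ => (z0 _ (hf.mem y (mD y hy h'))).2.1⟩
      · refine ⟨fun _ => ?_, fun a => absurd (h ▸ a) h'⟩
        linarith [(locq y hy h' _ (hεE y.2)).1, (hE1 _ (hεE y.2)).1]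
      · refine ⟨fun a => by linarith, fun _ => ?_⟩
        linarith [(z0 _ (hf.mem y (mD y hy h'))).2.1, (locs s hs h _ (hεE s)).1,
          (hE1 _ (hεE s)).1]
      · have b1 := locq y hy h' _ (hεE y.2)
        have b2 := locs s hs h _ (hεE s)
        constructor
        · intro a
          rcases (mono s y.2 (a.trans (hK.lt y hy)).le).eq_or_lt with b | b
          · rw [b]
            exact (hμ3 _ (hεE _) s (mS s hs h).2 y (m2 y hy h').2).1 a
          · linarith [sep _ _ b]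
        · intro a
          rcases (jump y hy (m2 y hy h').1 s a).eq_or_lt with b | b
          · rw [b]
            exact (hμ3 _ (hεE _) s (mS s hs h).2 y (m2 y hy h').2).2 a
          · linarith [sep _ _ b]

end Pool.Agent.Lib.MP_276eaf_co
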