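import Mathlib
import Pool.Agent.Lib.MP_276eaf_co.Pts

set_option autoImplicit false

namespace Pool.Agent.Lib.MP_276eaf_co

def XP (N : Finset Pt) (p q : Pt) : Prop :=
  p.1 < q.1 ∧ p.2 < q.2 ∧ ∃ m ∈ N, q.1 < m.1 ∧ m.2 < p.2

def InZ (N : Finset Pt) (t p : Pt) : Prop :=
  p = t ∨ XP N p t ∨ ∃ q ∈ N, XP N p q ∧ XP N q t

section
variable {N : Finset Pt} (hI : Inj N) (hA : Av4 N) {t : Pt} (ht : t ∈ N)
  (hmax : ∀ p ∈ N, p.2 ≤ t.2)

lemma InZ.le {p : Pt} (h : InZ N t p) : p.1 ≤ t.1 := by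
  rcases h with h | h | ⟨q, -, h, h'⟩
  · rw [h]
  · exact h.1.le
  · exact (h.1.trans h'.1).le

include hI ht hmax in
lemma lt_top {r : Pt} (hr : r ∈ N) (h : ¬ InZ N t r) : r.2 < t.2 :=
  lt_of_le_of_ne (hmax r hr) (fun e => h (Or.inl (hI.i2 r hr t ht e)))

include hI ht hmax in
lemma c1 {z r : Pt} (hz' : InZ N t z) (hr : r ∈ N) (h : ¬ InZ N t r)
    (a1 : r.1 < z.1) (a2 : z.2 < r.2) : False := by
  have b := lt_top hI ht hmax hr h
  rcases hz' with e | ⟨e1, e2, m, hm, e3, e4⟩ | ⟨q, hq, ⟨e1, e2, m, hm, e3, e4⟩, hqt⟩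
  · rw [e] at a2; linarith
  · exact h (Or.inr (Or.inl ⟨by linarith, b, m, hm, e3, by linarith⟩))
  · rcases hI.tri2 hr hq with e | e | e
    · exact h (Or.inr (Or.inr ⟨q, hq, ⟨by linarith, e, m, hm, e3, by linarith⟩, hqt⟩))
    · rw [e] at h; exact h (Or.inr (Or.inl hqt))
    · obtain ⟨d1, d2, m', hm', d3, d4⟩ := hqt
      exact h (Or.inr (Or.inl ⟨by linarith, b, m', hm', d3, by linarith⟩))

include hI hA ht hmax in
lemma c3 {z r : Pt} (hz : z ∈ N) (hz' : InZ N t z) (hr : r ∈ N) (h : ¬ InZ N t r)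
    (a : XP N z r) : False := by
  have b := lt_top hI ht hmax hr h
  obtain ⟨a1, a2, w, hw, a3, a4⟩ := a
  rcases hz' with e | ⟨e1, e2, m, hm, e3, e4⟩ | ⟨q, hq, ⟨e1, e2, m, hm, e3, e4⟩, hqt⟩
  · rw [e] at a2; linarith
  · rcases hI.tri1 hr ht with e | e | e
    · exact h (Or.inr (Or.inl ⟨e, b, m, hm, e3, by linarith⟩))
    · exact h (Or.inl e)
    · exact hA.f1 w hw z hz r hr t ht a4 a2 b e1 e a3
  · have hqt' := hqt
    obtain ⟨d1, d2, m', hm', d3, d4⟩ := hqt'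
    have hne : r ≠ q := fun e => h (by rw [e]; exact Or.inr (Or.inl hqt))
    rcases hI.tri1 hr hq with e | e | e
    · rcases hI.tri2 hr hq with e' | e' | e'
      · exact h (Or.inr (Or.inr ⟨q, hq, ⟨e, e', m, hm, e3, by linarith⟩, hqt⟩))
      · exact hne e'
      · exact hA.f1 m hm z hz q hq r hr e4 e2 e' a1 e e3
    · exact hne e
    · rcases hI.tri2 hr hq with e' | e' | e'
      · exact hA.f1 w hw z hz r hr q hq a4 a2 e' e1 e a3
      · exact hne e'
      · rcases hI.tri1 hr ht with e'' | e'' | e''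
        · exact h (Or.inr (Or.inl ⟨e'', b, m', hm', d3, by linarith⟩))
        · exact h (Or.inl e'')
        · exact hA.f1 w hw q hq r hr t ht (by linarith) e' b d1 e'' a3

include hI hA ht hmax in
lemma c2 {z r r' : Pt} (hz : z ∈ N) (hz' : InZ N t z) (hr : r ∈ N) (h : ¬ InZ N t r)
    (hr' : r' ∈ N) (h' : ¬ InZ N t r') (a2 : r.2 < r'.2) (a3 : r'.1 < z.1) (a4 : z.1 < r.1) :
    False := by
  rcases hI.tri2 hr' hz with e | e | e
  · have x1 : XP N r' z := ⟨a3, e, r, hr, a4, a2⟩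
    rcases hz' with e0 | e0 | ⟨q, hq, ⟨e1, e2, m, hm, e3, e4⟩, hqt⟩
    · rw [e0] at x1; exact h' (Or.inr (Or.inl x1))
    · exact h' (Or.inr (Or.inr ⟨z, hz, x1, e0⟩))
    · have hqt' := hqt
      obtain ⟨d1, d2, m', hm', d3, d4⟩ := hqt'
      have n1 : ∀ w ∈ N, q.1 < w.1 → w.2 < r'.2 → False := fun w hw u1 u2 =>
        h' (Or.inr (Or.inr ⟨q, hq, ⟨by linarith, by linarith, w, hw, u1, u2⟩, hqt⟩))
      have n2 : ∀ w ∈ N, t.1 < w.1 → w.2 < z.2 → False := fun w hw u1 u2 =>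
        h' (Or.inr (Or.inr ⟨z, hz, x1, ⟨by linarith, by linarith, w, hw, u1, u2⟩⟩))
      have s1 : r.1 < q.1 := by
        rcases hI.tri1 hr hq with u | u | u
        · exact u
        · rw [u] at a2; linarith
        · exact (n1 r hr u a2).elim
      have s2 : r'.2 < m.2 := by
        rcases hI.tri2 hr' hm with u | u | u
        · exact u
        · rw [u] at a3; linarith
        · exact (n1 m hm e3 u).elim
      have s3 : m.1 < t.1 := by
        rcases hI.tri1 hm ht with u | u | u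
        · exact u
        · rw [u] at e4; linarith
        · exact (n2 m hm u e4).elim
      have s4 : z.2 < m'.2 := by
        rcases hI.tri2 hz hm' with u | u | u
        · exact u
        · rw [u] at e1; linarith
        · exact (n2 m' hm' d3 u).elim
      exact hA.f4 r hr r' hr' m hm z hz m' hm' q hq t ht a2 s2 e4 s4 d4 d2 a3 a4 s1 e3 s3 d3
  · rw [e] at a3; linarith
  · exact c1 hI ht hmax hz' hr' h' a3 e

include hI hA ht hmax in
lemma c4 {z1 z2 r : Pt} (hz : z1 ∈ N) (hz' : InZ N t z1) (hz2 : InZ N t z2) (hr : r ∈ N)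
    (h : ¬ InZ N t r) (a1 : z1.2 < r.2) (a2 : r.1 < z2.1) : False := by
  have b := lt_top hI ht hmax hr h
  have b2 : r.1 < t.1 := a2.trans_le hz2.le
  have b3 : z1.1 < r.1 := by
    rcases hI.tri1 hz hr with u | u | u
    · exact u
    · rw [u] at a1; linarith
    · exact (c1 hI ht hmax hz' hr h u a1).elim
  have n2 : ∀ w ∈ N, t.1 < w.1 → w.2 < r.2 → False := fun w hw u1 u2 =>
    h (Or.inr (Or.inl ⟨b2, b, w, hw, u1, u2⟩))
  have hz'' := hz'
  rcases hz'' with e | ⟨e1, e2, m, hm, e3, e4⟩ | ⟨q, hq, ⟨e1, e2, m, hm, e3, e4⟩, hqt⟩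
  · rw [e] at a1; linarith
  · exact n2 m hm e3 (by linarith)
  · have hqt' := hqt
    obtain ⟨d1, d2, m', hm', d3, d4⟩ := hqt'
    have s1 : r.2 < m'.2 := by
      rcases hI.tri2 hr hm' with u | u | u
      · exact u
      · rw [u] at b2; linarith
      · exact (n2 m' hm' d3 u).elim
    have s2 : m.1 < r.1 := by
      rcases hI.tri1 hm hr with u | u | u
      · exact u
      · rw [u] at e4; linarith
      · exact (c3 hI hA ht hmax hz hz' hr h ⟨b3, a1, m, hm, u, e4⟩).elim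
    exact hA.f2 m hm z1 hz r hr m' hm' q hq t ht e4 a1 s1 d4 d2 e1 e3 s2 b2 d3

include hI hA ht hmax in
lemma c5 {x y z : Pt} (hx : x ∈ N) (hx' : InZ N t x) (hy : y ∈ N) (hy' : InZ N t y) (hz : z ∈ N)
    (a1 : x.1 < z.1) (a2 : z.1 < y.1) (a3 : x.2 < y.2) (a4 : y.2 < z.2) : False := by
  have b1 := hmax z hz
  have b2 := hy'.le
  have n1 : ∀ w ∈ N, y.1 < w.1 → w.2 < x.2 → False := fun w hw u1 u2 =>
    hA.f1 w hw x hx y hy z hz u2 a3 a4 a1 a2 u1
  have b3 : y.1 < t.1 := by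
    rcases hI.tri1 hy ht with u | u | u
    · exact u
    · rw [u] at a4; linarith
    · linarith
  have b4 : z.2 < t.2 := by
    rcases hI.tri2 hz ht with u | u | u
    · exact u
    · rw [u] at a2; linarith
    · linarith
  rcases hx' with e | ⟨e1, e2, m, hm, e3, e4⟩ | ⟨q, hq, ⟨e1, e2, m, hm, e3, e4⟩, hqt⟩
  · rw [e] at a3; linarith
  · exact n1 m hm (by linarith) e4
  · obtain ⟨d1, d2, m', hm', d3, d4⟩ := hqt
    have s1 : m.1 < y.1 := by
      rcases hI.tri1 hm hy with u | u | u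
      · exact u
      · rw [u] at e4; linarith
      · exact (n1 m hm u e4).elim
    have n3 : ∀ w ∈ N, y.1 < w.1 → x.2 < w.2 := by
      intro w hw u1
      rcases hI.tri2 hx hw with u | u | u
      · exact u
      · rw [u] at a1; linarith
      · exact (n1 w hw u1 u).elim
    by_cases hyt : ∃ w ∈ N, t.1 < w.1 ∧ w.2 < y.2
    · obtain ⟨w, hw, u1, u2⟩ := hyt
      have s2 := n3 w hw (by linarith)
      rcases hI.tri2 hy hq with u | u | u
      · exact hA.f3 m hm x hx w hw y hy q hq t ht e4 s2 u2 u d2 e1 e3 s1 b3 u1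
      · rw [u] at s1; linarith
      · rcases hI.tri1 hz hm with v | v | v
        · exact hA.f3 m hm x hx w hw y hy z hz t ht e4 s2 u2 a4 b4 a1 v s1 b3 u1
        · rw [v] at a4; linarith
        · exact hA.f1 m' hm' q hq y hy z hz d4 u a4 (by linarith) a2 (by linarith)
    · rcases hy' with e | ⟨g1, g2, w, hw, g3, g4⟩ | ⟨q', hq', ⟨g1, g2, w, hw, g3, g4⟩, -⟩
      · rw [e] at b3; linarith
      · exact hyt ⟨w, hw, g3, g4⟩
      · have s2 := n3 w hw (by linarith)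
        have s3 : w.1 < t.1 := by
          rcases hI.tri1 hw ht with u | u | u
          · exact u
          · rw [u] at g4; linarith
          · exact (hyt ⟨w, hw, u, g4⟩).elim
        have s4 : y.2 < m'.2 := by
          rcases hI.tri2 hy hm' with u | u | u
          · exact u
          · rw [u] at b3; linarith
          · exact (hyt ⟨m', hm', d3, u⟩).elim
        exact hA.f2 m hm x hx w hw m' hm' q hq t ht e4 s2 (by linarith) d4 d2 e1 e3 (by linarith)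
          s3 d3

end

lemma exists_Z {N : Finset Pt} (hI : Inj N) (hA : Av4 N) (hne : N.Nonempty) :
    ∃ Z ⊆ N, Z.Nonempty ∧ No312 Z ∧
      (∀ r ∈ N, r ∉ Z → (∀ z ∈ Z, r.2 < z.2) ∨ ∀ z ∈ Z, z.1 < r.1) ∧
      ∀ r ∈ N, r ∉ Z → ∀ r' ∈ N, r' ∉ Z → r'.1 < r.1 → r.2 < r'.2 → ∀ z ∈ Z,
        ¬ (r'.1 < z.1 ∧ z.1 < r.1) ∧ ¬ (r.2 < z.2 ∧ z.2 < r'.2) := by
  classical
  obtain ⟨t, ht, hmax⟩ := Finset.exists_max_image N Prod.snd hne
  have mem : ∀ p, p ∈ N.filter (InZ N t) ↔ p ∈ N ∧ InZ N t p := fun p => Finset.mem_filter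
  refine ⟨N.filter (InZ N t), Finset.filter_subset _ _, ⟨t, (mem t).2 ⟨ht, Or.inl rfl⟩⟩, ?_, ?_, ?_⟩
  · intro p hp q hq r hr a1 a2 a3 a4
    rw [mem] at hp hq hr
    exact c5 hI hA ht hmax hp.1 hp.2 hq.1 hq.2 hr.1 a1 a2 a3 a4
  · intro r hr hr'
    have h : ¬ InZ N t r := fun h => hr' ((mem r).2 ⟨hr, h⟩)
    by_contra hc
    simp only [not_or, not_forall, not_lt] at hc
    obtain ⟨⟨z1, hz1, a1⟩, z2, hz2, a2⟩ := hc
    rw [mem] at hz1 hz2
    refine c4 hI hA ht hmax hz1.1 hz1.2 hz2.2 hr h (lt_of_le_of_ne a1 fun e => ?_)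
      (lt_of_le_of_ne a2 fun e => ?_)
    · exact h (hI.i2 _ hz1.1 _ hr e ▸ hz1.2)
    · exact h ((hI.i1 _ hr _ hz2.1 e).symm ▸ hz2.2)
  · intro r hr hr1 r' hr' hr2 a1 a2 z hz
    have h : ¬ InZ N t r := fun h => hr1 ((mem r).2 ⟨hr, h⟩)
    have h' : ¬ InZ N t r' := fun h => hr2 ((mem r').2 ⟨hr', h⟩)
    rw [mem] at hz
    refine ⟨fun ⟨a3, a4⟩ => c2 hI hA ht hmax hz.1 hz.2 hr h hr' h' a2 a3 a4, fun ⟨a3, a4⟩ => ?_⟩
    rcases hI.tri1 hr' hz.1 with u | u | u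
    · exact c1 hI ht hmax hz.2 hr' h' u a4
    · rw [u] at a4; linarith
    · exact c3 hI hA ht hmax hz.1 hz.2 hr' h' ⟨u, a4, r, hr, a1, a3⟩

end Pool.Agent.Lib.MP_276eaf_co
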