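import Mathlib
import Pool.Agent.Lib.MP_276eaf_co.StepA
import Pool.Agent.Lib.MP_276eaf_co.StepM
import Pool.Agent.Lib.MP_276eaf_co.Struct

set_option autoImplicit false

namespace Pool.Agent.Lib.MP_276eaf_co

def PA (σ : Finset Pt) (n : ℕ) : Prop :=
  ∀ Y : Finset Pt, Good Y → Y.card ≤ n → ∀ g : ℚ, (∀ y ∈ Y, y.1 ≤ g) →
    ∀ X : Finset Pt, Inj X → No312 X → SA σ X Y g

lemma sm_of_pa {σ : Finset Pt} (h1 : Inj σ) (h2 : No312 σ) {n : ℕ} (H : PA σ n) :
    ∀ (k : ℕ) (S : Finset ℚ), S.card ≤ k → ∀ K : Finset Pt, Good K → K.card ≤ n → Safe K S →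
      SM σ K S := by
  classical
  have base : ∀ K : Finset Pt, Good K → K.card ≤ n → SM σ K ∅ := by
    intro K hK hn
    obtain ⟨g, hg⟩ := (K.image Prod.fst).bddAbove
    exact sm_of_sa (H K hK hn g (fun y hy => hg (by simpa using ⟨y.2, hy⟩)) σ h1 h2)
  intro k
  induction k with
  | zero =>
    intro S hS K hK hn _
    rw [Finset.card_eq_zero.1 (Nat.le_zero.1 hS)]
    exact base K hK hn
  | succ k ih =>
    intro S hS K hK hn hsafe
    rcases S.eq_empty_or_nonempty with e | e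
    · rw [e]; exact base K hK hn
    obtain ⟨m1, hm, hmin⟩ := Finset.exists_min_image S id e
    refine stepM hK hsafe hm hmin ?_ ?_
    · exact H _ (hK.mono (Finset.filter_subset _ _)) ((Finset.card_filter_le _ _).trans hn) m1
        (fun y hy => (Finset.mem_filter.1 hy).2.le) σ h1 h2
    · refine ih _ (by rw [Finset.card_erase_of_mem hm]; omega) _
        (hK.mono (Finset.filter_subset _ _)) ((Finset.card_filter_le _ _).trans hn) ?_
      intro s hs
      have := hsafe s (Finset.mem_of_mem_erase hs)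
      exact ⟨fun p hp => this.1 p (Finset.mem_filter.1 hp).1, fun p hp q hq =>
        this.2 p (Finset.mem_filter.1 hp).1 q (Finset.mem_filter.1 hq).1⟩

lemma pa_all {σ : Finset Pt} (h1 : Inj σ) (h2 : No312 σ) (n : ℕ) : PA σ n := by
  classical
  induction n with
  | zero =>
    intro Y _ hn g _ X _ _
    rw [Finset.card_eq_zero.1 (Nat.le_zero.1 hn)]
    exact sa_nilY _ _ _
  | succ n ih =>
    have opn : ∀ Y : Finset Pt, Good Y → Y.card ≤ n + 1 → ∀ g : ℚ, (∀ y ∈ Y, y.1 ≤ g) →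
        (∃ y ∈ Y, g < y.2) → ∀ (k : ℕ) (X : Finset Pt), X.card ≤ k → Inj X → No312 X →
        SA σ X Y g := by
      intro Y hY hn g hg ho k
      obtain ⟨z, hz, hz'⟩ := exists_zp hY ho
      have small : ∀ (P : Pt → Prop) [DecidablePred P], ¬ P z → (Y.filter P).card ≤ n := by
        intro P _ hP
        have : (Y.filter P).card < Y.card :=
          Finset.card_lt_card ⟨Finset.filter_subset _ _,
            fun h => hP (Finset.mem_filter.1 (h hz)).2⟩
        omega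
      induction k with
      | zero =>
        intro X hk _ _
        rw [Finset.card_eq_zero.1 (Nat.le_zero.1 hk)]
        exact sa_nilX _ _ _
      | succ k ihk =>
        intro X hk hX hX2
        rcases X.eq_empty_or_nonempty with e | e
        · rw [e]; exact sa_nilX _ _ _
        obtain ⟨x, hx, hxm⟩ := Finset.exists_max_image X Prod.fst e
        have sub := Finset.erase_subset x X
        refine stepA hX hX2 hx hxm hY hg ?_ ?_ ?_
        · exact ihk _ (by rw [Finset.card_erase_of_mem hx]; omega) (hX.mono sub)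
            (fun p hp q hq r hr => hX2 p (sub hp) q (sub hq) r (sub hr))
        · exact ih _ (hY.mono (Finset.filter_subset _ _)) (small _ (hz'.notLow hY hz)) g
            (fun y hy => hg y (Finset.mem_filter.1 hy).1) X hX hX2
        · refine sm_of_pa h1 h2 ih _ _ le_rfl _ (hY.mono (Finset.filter_subset _ _))
            (small (fun y => ¬ Low Y g g y ∧ y.2 ≤ g) (fun h => absurd hz'.1 (not_lt.2 h.2))) ?_
          intro s hs
          obtain ⟨w, hw, rfl⟩ := Finset.mem_image.1 hs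
          rw [Finset.mem_filter] at hw
          refine ⟨fun p hp h => ?_, fun p hp q hq a1 a2 a3 a4 => ?_⟩
          · rw [Finset.mem_filter] at hp
            have := hY.i1 p hp.1 w hw.1 h
            rw [this] at hp
            exact absurd hw.2.1 (not_lt.2 hp.2.2)
          · rw [Finset.mem_filter] at hp hq
            exact hY.free p hp.1 q hq.1 w hw.1 a1 a2 a3 a4 (hq.2.2.trans_lt hw.2.1)
    intro Y hY hn g hg X hX hX2
    by_cases ho : ∃ y ∈ Y, g < y.2
    · exact opn Y hY hn g hg ho _ X le_rfl hX hX2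
    rcases Y.eq_empty_or_nonempty with e | e
    · rw [e]; exact sa_nilY _ _ _
    obtain ⟨y, hy, hmax⟩ := Finset.exists_max_image Y Prod.fst e
    exact sa_of_sm (fun y hy => not_lt.1 (fun h => ho ⟨y, hy, h⟩))
      (sm_of_sa (opn Y hY hn y.1 hmax ⟨y, hy, hY.lt y hy⟩ _ σ le_rfl h1 h2))

def SF (N K : Finset Pt) : Prop :=
  ∀ l0 l1 : ℚ, l0 < l1 → ∃ T : Finset Pt, Good T ∧ (∀ p ∈ T, l0 < p.1 ∧ p.2 < l1) ∧
    ∀ c : Pt → Prop, (∃ f, Emb N T c f) ∨ ∃ f, Emb K T (fun p => ¬ c p) f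

lemma stepF {N Z K : Finset Pt} (hI : Inj N)
    (h1 : ∀ r ∈ N, r ∉ Z → (∀ z ∈ Z, r.2 < z.2) ∨ ∀ z ∈ Z, z.1 < r.1)
    (h2 : ∀ r ∈ N, r ∉ Z → ∀ r' ∈ N, r' ∉ Z → r'.1 < r.1 → r.2 < r'.2 → ∀ z ∈ Z,
        ¬ (r'.1 < z.1 ∧ z.1 < r.1) ∧ ¬ (r.2 < z.2 ∧ z.2 < r'.2)) (hZ : Z ⊆ N)
    (H1 : SM Z K ∅) (H2 : SF (N \ Z) K) : SF N K := by
  classical
  intro l0 l1 hl
  obtain ⟨T0, S0, g0, in0, -, -, H0⟩ := H1 l0 l1 hl
  obtain ⟨E, hE⟩ : ∃ E : Finset ℚ, ∀ e, e ∈ E ↔ e = l0 ∨ ∃ p ∈ T0, p.1 = e ∨ p.2 = e :=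
    ⟨insert l0 (T0.image Prod.fst ∪ T0.image Prod.snd), fun e => by
      simp only [Finset.mem_insert, Finset.mem_image, Finset.mem_union, and_or_left, exists_or]⟩
  have hE1 : ∀ e ∈ E, l0 ≤ e ∧ e < l1 := by
    intro e he
    rcases (hE e).1 he with h | ⟨p, hp, a⟩
    · rw [h]; exact ⟨le_rfl, hl⟩
    · have b := in0 p hp
      have b' := g0.lt p hp
      rcases a with a | a <;> exact ⟨by linarith, by linarith⟩
  have e1 : ∀ p ∈ T0, p.1 ∈ E := fun p hp => (hE _).2 (Or.inr ⟨p, hp, Or.inl rfl⟩)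
  have e2 : ∀ p ∈ T0, p.2 ∈ E := fun p hp => (hE _).2 (Or.inr ⟨p, hp, Or.inr rfl⟩)
  obtain ⟨nx, hnx⟩ := exists_nx E l1 (fun e he => (hE1 e he).2)
  choose! F gF inF HF using fun e (he : e ∈ E) => H2 e (nx e) (hnx e he).1
  have hgap : ∀ e ∈ E, ∀ p ∈ T0, (p.1 ≤ e ∨ nx e ≤ p.1) ∧ (p.2 ≤ e ∨ nx e ≤ p.2) :=
    fun e he p hp => ⟨(le_or_gt p.1 e).imp_right ((hnx e he).2.2 _ (e1 p hp)),
      (le_or_gt p.2 e).imp_right ((hnx e he).2.2 _ (e2 p hp))⟩
  have mem : ∀ p, p ∈ T0 ∪ E.biUnion F ↔ p ∈ T0 ∨ ∃ e ∈ E, p ∈ F e := by simp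
  have subF : ∀ e ∈ E, F e ⊆ T0 ∪ E.biUnion F := fun e he p hp => (mem p).2 (Or.inr ⟨e, he, hp⟩)
  refine ⟨T0 ∪ E.biUnion F, good_gap g0 gF inF (fun e he => (hnx e he).2.2) hgap, ?_, fun c => ?_⟩
  · intro p hp
    rcases (mem p).1 hp with h | ⟨e, he, h⟩
    · exact in0 p h
    · have a1 := inF e he p h
      exact ⟨by linarith [(hE1 e he).1], by linarith [(hnx e he).2.1]⟩
  by_cases hr : ∃ e ∈ E, ∃ f, Emb K (F e) (fun p => ¬ c p) f
  · obtain ⟨e, he, f, h⟩ := hr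
    exact Or.inr ⟨f, h.mono (subF e he)⟩
  rcases H0 c with ⟨f, g, hf, hg⟩ | ⟨f, m, h, -⟩
  swap
  · exact Or.inr ⟨f, h.mono Finset.subset_union_left⟩
  left
  choose! φ hφ using fun e (he : e ∈ E) => (HF e he c).resolve_right (fun h => hr ⟨e, he, h⟩)
  obtain ⟨ε, hε, hεm⟩ := exists_anchor l0 E
    (fun (q : Pt) x => ∃ p ∈ Z, (p.1 < q.1 ∧ (f p).1 = x) ∨ (p.2 < q.2 ∧ (f p).2 = x))
  have hεE : ∀ t, ε t ∈ E := fun t => by
    rcases (hε t).2.2 with h | h
    · rw [h]; exact (hE _).2 (Or.inl rfl)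
    · exact h.1
  have mR : ∀ q ∈ N, q ∉ Z → q ∈ N \ Z := fun q a b => Finset.mem_sdiff.2 ⟨a, b⟩
  have loc : ∀ q ∈ N, q ∉ Z → ε q < (φ (ε q) q).1 ∧ (φ (ε q) q).1 < (φ (ε q) q).2 ∧
      (φ (ε q) q).2 < nx (ε q) := fun q a b =>
    have h := (hφ _ (hεE q)).mem q (mR q a b)
    ⟨(inF _ (hεE q) _ h).1, (gF _ (hεE q)).lt _ h, (inF _ (hεE q) _ h).2⟩
  have sep : ∀ t, ∀ e ∈ E, ε t < e → nx (ε t) ≤ e := fun t => (hnx _ (hεE t)).2.2
  have mono : ∀ q ∈ N, q ∉ Z → ∀ q' ∈ N, q' ∉ Z → q.1 < q'.1 ∨ q.2 < q'.2 → ε q ≤ ε q' := by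
    intro q a b q' a' b' h
    refine hεm _ _ (fun x _ ⟨p, hp, u⟩ => ⟨p, hp, ?_⟩)
    have ne : p ≠ q' := fun e => b' (e ▸ hp)
    rcases u with ⟨u, v⟩ | ⟨u, v⟩
    · refine Or.inl ⟨?_, v⟩
      rcases hI.tri1 (hZ hp) a' with w | w | w
      · exact w
      · exact absurd w ne
      · rcases h with h | h
        · linarith
        · exact ((h2 q a b q' a' b' (w.trans u) h p hp).1 ⟨w, u⟩).elim
    · refine Or.inr ⟨?_, v⟩
      rcases hI.tri2 (hZ hp) a' with w | w | w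
      · exact w
      · exact absurd w ne
      · rcases h with h | h
        · exact ((h2 q' a' b' q a b h (w.trans u) p hp).2 ⟨w, u⟩).elim
        · linarith
  refine ⟨fun q => if q ∈ Z then f q else φ (ε q) q, ?_, ?_, ?_, ?_⟩
  · intro y hy
    split_ifs with h
    exacts [Finset.mem_union_left _ (hf.mem y h),
      subF _ (hεE y) ((hφ _ (hεE y)).mem y (mR y hy h))]
  · intro y hy
    split_ifs with h
    exacts [hf.col y h, (hφ _ (hεE y)).col y (mR y hy h)]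
  · intro y hy y' hy' a
    split_ifs with h h' h'
    · exact hf.m1 y h y' h' a
    · linarith [(hε y').1 _ (e1 _ (hf.mem y h)) ⟨y, h, Or.inl ⟨a, rfl⟩⟩, (loc y' hy' h').1]
    · have b : ε y < (f y').1 := by
        rcases (hε y).2.2 with u | ⟨-, p, hp, ⟨u, v⟩ | ⟨u, v⟩⟩
        · rw [u]; exact (in0 _ (hf.mem y' h')).1
        · rw [← v]; exact hf.m1 p hp y' h' (u.trans a)
        · rcases h1 y hy h with w | w
          · linarith [w p hp]
          · linarith [w y' h']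
      have d := loc y hy h
      linarith [sep y _ (e1 _ (hf.mem y' h')) b]
    · rcases (mono y hy h y' hy' h' (Or.inl a)).eq_or_lt with b | b
      · rw [b]
        exact (hφ _ (hεE y')).m1 y (mR y hy h) y' (mR y' hy' h') a
      · have d := loc y hy h
        linarith [sep y _ (hεE y') b, (loc y' hy' h').1]
  · intro y hy y' hy' a
    split_ifs with h h' h'
    · exact hf.m2 y h y' h' a
    · have d := loc y' hy' h'
      linarith [(hε y').1 _ (e2 _ (hf.mem y h)) ⟨y, h, Or.inr ⟨a, rfl⟩⟩]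
    · have b : ε y < (f y').2 := by
        rcases (hε y).2.2 with u | ⟨-, p, hp, ⟨u, v⟩ | ⟨u, v⟩⟩
        · rw [u]; exact (in0 _ (hf.mem y' h')).1.trans (g0.lt _ (hf.mem y' h'))
        · rw [← v]; exact (hg p hp).1.trans (hg y' h').2
        · rw [← v]; exact hf.m2 p hp y' h' (u.trans a)
      linarith [sep y _ (e2 _ (hf.mem y' h')) b, (loc y hy h).2.2]
    · rcases (mono y hy h y' hy' h' (Or.inr a)).eq_or_lt with b | b
      · rw [b]
        exact (hφ _ (hεE y')).m2 y (mR y hy h) y' (mR y' hy' h') a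
      · have d := loc y' hy' h'
        linarith [sep y _ (hεE y') b, (loc y hy h).2.2]

lemma sf_all {K : Finset Pt} (hK : Good K) (n : ℕ) :
    ∀ N : Finset Pt, N.card ≤ n → Inj N → Av4 N → SF N K := by
  have nil : SF ∅ K := fun _ _ _ =>
    ⟨∅, good_empty, by simp, fun c => Or.inl ⟨id, emb_empty _ _⟩⟩
  induction n with
  | zero =>
    intro N hn _ _
    rw [Finset.card_eq_zero.1 (Nat.le_zero.1 hn)]
    exact nil
  | succ n ih =>
    intro N hn hI hA
    rcases N.eq_empty_or_nonempty with e | e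
    · rw [e]; exact nil
    obtain ⟨Z, hZ, hne, z1, z2, z3⟩ := exists_Z hI hA e
    refine stepF hI z2 z3 hZ ?_ (ih _ ?_ (hI.mono Finset.sdiff_subset)
      (hA.mono Finset.sdiff_subset))
    · exact sm_of_pa (hI.mono hZ) z1 (pa_all (hI.mono hZ) z1 _) 0 ∅ le_rfl K hK le_rfl
        (by simp [Safe])
    · rw [Finset.card_sdiff_of_subset hZ]
      have := hne.card_pos
      omega

end Pool.Agent.Lib.MP_276eaf_co
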