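import Mathlib
import Pool.Agent.Lib.MP_276eaf_co.CoreDefs

set_option autoImplicit false

namespace Pool.Agent.Lib.MP_276eaf_co

lemma InC.f1 {n : ℕ} {τ : Equiv.Perm (Fin n)} (h : InC τ) {m p q r : Fin n} (h1 : m < p)
    (h2 : p < q) (h3 : q < r) (h4 : τ m < τ q) (h5 : τ q < τ r) (h6 : τ r < τ p) : False := by
  refine h ⟨![m, p, q, r], ?_, fun _ => trivial, ?_⟩
  · rw [Fin.strictMono_iff_lt_succ]
    intro i
    fin_cases i
    exacts [h1, h2, h3]
  · simp only [Fin.lt_def] at h4 h5 h6 ⊢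
    intro i j
    fin_cases i <;> fin_cases j <;> simp [p1423] <;> omega

/-- `q` crosses `p` from the right in the envelope matching. -/
def XR {n : ℕ} (τ : Equiv.Perm (Fin n)) (p q : Fin n) : Prop :=
  p < q ∧ τ q < τ p ∧ ∃ m, m < p ∧ τ m < τ q

lemma exists_depth {n : ℕ} (τ : Equiv.Perm (Fin n)) :
    ∃ d : Fin n → ℕ, ∀ p P, XR τ p P → (∀ q, XR τ p q → q ≤ P) → d p = d P + 1 := by
  classical
  have hpar : ∀ p : Fin n, (∃ q, XR τ p q) → ∃ P, XR τ p P ∧ ∀ q, XR τ p q → q ≤ P := by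
    intro p ⟨q, hq⟩
    obtain ⟨P, hP, hmax⟩ := Finset.exists_max_image (Finset.univ.filter (XR τ p)) id ⟨q, by simpa⟩
    simp only [Finset.mem_filter, Finset.mem_univ, true_and, id] at hP hmax
    exact ⟨P, hP, hmax⟩
  choose! par hpar1 hpar2 using hpar
  let D : ℕ → Fin n → ℕ := fun k => Nat.rec (fun _ => 0)
    (fun _ D p => if ∃ q, XR τ p q then D (par p) + 1 else 0) k
  have hD : ∀ k p, D (k + 1) p = if ∃ q, XR τ p q then D k (par p) + 1 else 0 := fun _ _ => rfl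
  have stab : ∀ k : ℕ, ∀ p : Fin n, n ≤ p.val + k → D (k + 1) p = D k p := by
    intro k
    induction k with
    | zero => intro p hp; have := p.2; omega
    | succ k ih =>
      intro p hp
      rw [hD (k + 1) p, hD k p]
      split_ifs with h
      · have := (hpar1 p h).1
        rw [Fin.lt_def] at this
        rw [ih _ (by omega)]
      · rfl
  refine ⟨D n, fun p P h1 h2 => ?_⟩
  have h : ∃ q, XR τ p q := ⟨P, h1⟩
  have e : par p = P := le_antisymm (h2 _ (hpar1 p h)) (hpar2 p h _ h1)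
  rw [← stab n p (by omega), hD, if_pos h, e]

lemma exists_par {n : ℕ} {τ : Equiv.Perm (Fin n)} {p q : Fin n} (h : XR τ p q) :
    ∃ P, XR τ p P ∧ ∀ q, XR τ p q → q ≤ P := by
  classical
  obtain ⟨P, hP, hmax⟩ := Finset.exists_max_image (Finset.univ.filter (XR τ p)) id ⟨q, by simpa⟩
  simp only [Finset.mem_filter, Finset.mem_univ, true_and, id] at hP hmax
  exact ⟨P, hP, hmax⟩

lemma XR.fifo {n : ℕ} {τ : Equiv.Perm (Fin n)} (hτ : InC τ) {p q r : Fin n} (h1 : XR τ p q)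
    (h2 : XR τ p r) (h : q < r) : XR τ q r := by
  obtain ⟨a1, a2, m, a3, a4⟩ := h1
  obtain ⟨b1, b2, m', b3, b4⟩ := h2
  refine ⟨h, ?_, m', b3.trans a1, b4⟩
  rcases lt_trichotomy (τ r) (τ q) with e | e | e
  · exact e
  · exact absurd (τ.injective e) h.ne'
  · exact (hτ.f1 a3 a1 h a4 e b2).elim

lemma depth_step {n : ℕ} {τ : Equiv.Perm (Fin n)} (hτ : InC τ) {d : Fin n → ℕ}
    (hd : ∀ p P, XR τ p P → (∀ q, XR τ p q → q ≤ P) → d p = d P + 1) :
    ∀ k : ℕ, ∀ p q : Fin n, n ≤ p.val + k → XR τ p q → d p = d q ∨ d p = d q + 1 := by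
  intro k
  induction k with
  | zero => intro p q hp; have := p.2; omega
  | succ k ih =>
    intro p q hp h
    obtain ⟨P, hP, hmax⟩ := exists_par h
    have e1 := hd p P hP hmax
    rcases (hmax q h).eq_or_lt with e | e
    · right; rw [e, e1]
    · have h2 := h.fifo hτ hP e
      obtain ⟨P', hP', hmax'⟩ := exists_par h2
      have e2 := hd q P' hP' hmax'
      rcases (hmax' P h2).eq_or_lt with e' | e'
      · left; rw [e1, e2, e']
      · have h3 := h2.fifo hτ hP' e'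
        have := hP.1
        rw [Fin.lt_def] at this
        rcases ih P P' (by omega) h3 with e3 | e3 <;> omega

/-- A colouring in which crossing is transitive on each colour class. -/
lemma exists_col {n : ℕ} {τ : Equiv.Perm (Fin n)} (hτ : InC τ) :
    ∃ R : Set (Fin n), ∀ z q t, (z ∈ R ↔ q ∈ R) → (q ∈ R ↔ t ∈ R) → XR τ z q → XR τ q t →
      XR τ z t := by
  obtain ⟨d, hd⟩ := exists_depth τ
  have hs := fun p q => depth_step hτ hd n p q (by omega)
  refine ⟨{p | d p % 2 = 0}, fun z q t c1 c2 h1 h2 => ?_⟩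
  simp only [Set.mem_ofPred_eq] at c1 c2
  have e1 : d z = d q := by rcases hs z q h1 with e | e <;> omega
  have e2 : d q = d t := by rcases hs q t h2 with e | e <;> omega
  obtain ⟨P, hP, hmax⟩ := exists_par h1
  have e3 := hd z P hP hmax
  have h3 : q < P := lt_of_le_of_ne (hmax q h1) (fun e => by rw [e] at e1; omega)
  have h4 := h1.fifo hτ hP h3
  rcases lt_trichotomy t P with e | e | e
  · have h5 := h2.fifo hτ h4 e
    obtain ⟨m, a3, a4⟩ := hP.2.2
    exact ⟨h1.1.trans h2.1, h2.2.1.trans h1.2.1, m, a3, a4.trans h5.2.1⟩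
  · rw [e] at e2; omega
  · rcases hs P t (h4.fifo hτ h2 e) with e4 | e4 <;> omega

lemma CopyIn.trans {k l n : ℕ} {β : Equiv.Perm (Fin k)} {π : Equiv.Perm (Fin l)}
    {τ : Equiv.Perm (Fin n)} {R : Set (Fin n)} (h1 : CopyIn β π Set.univ) (h2 : CopyIn π τ R) :
    CopyIn β τ R := by
  obtain ⟨f, hf, -, hv⟩ := h1
  obtain ⟨g, hg, hR, hw⟩ := h2
  exact ⟨g ∘ f, hg.comp hf, fun i => hR _, fun i j => (hv i j).trans (hw _ _)⟩

lemma avoids_of {k l : ℕ} {β : Equiv.Perm (Fin k)} {π : Equiv.Perm (Fin l)} (hβ : InC β)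
    (H : ∀ (n : ℕ) (τ : Equiv.Perm (Fin n)) (S : Set (Fin n)), InC τ →
      (∀ z ∈ S, ∀ q ∈ S, ∀ t ∈ S, XR τ z q → XR τ q t → XR τ z t) → ¬ CopyIn β τ S)
    (hπ : Unavoidable π) : Avoids β π := by
  intro h
  obtain ⟨n, τ, hτ, hc⟩ := hπ.2 k β hβ
  obtain ⟨R, hR⟩ := exists_col hτ
  rcases hc R with h1 | h1
  · exact H n τ R hτ (fun z hz q hq t ht => hR z q t (by simp [hz, hq]) (by simp [hq, ht]))
      (h.trans h1)
  · refine H n τ Rᶜ hτ (fun z hz q hq t ht => hR z q t ?_ ?_) h1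
    · exact iff_of_false hz hq
    · exact iff_of_false hq ht

lemma inC_of_dec {k : ℕ} (β : Equiv.Perm (Fin k))
    (h : ∀ m p q r : Fin k, m < p → p < q → q < r → β m < β q → β q < β r → ¬ β r < β p) :
    InC β := by
  rintro ⟨f, hf, -, hv⟩
  exact h (f 0) (f 1) (f 2) (f 3) (hf (by decide)) (hf (by decide)) (hf (by decide))
    ((hv 0 2).1 (by decide)) ((hv 2 3).1 (by decide)) ((hv 3 1).1 (by decide))

lemma Unavoidable.av1 {l : ℕ} {π : Equiv.Perm (Fin l)} (hπ : Unavoidable π) :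
    Avoids p463152 π := by
  refine avoids_of (inC_of_dec _ (by decide)) ?_ hπ
  rintro n τ S hτ H ⟨f, hf, hS, hv⟩
  have h1 : XR τ (f 1) (f 4) :=
    ⟨hf (by decide), (hv 4 1).1 (by decide), f 0, hf (by decide), (hv 0 4).1 (by decide)⟩
  have h2 : XR τ (f 4) (f 5) :=
    ⟨hf (by decide), (hv 5 4).1 (by decide), f 3, hf (by decide), (hv 3 5).1 (by decide)⟩
  obtain ⟨-, -, m, a1, a2⟩ := H _ (hS 1) _ (hS 4) _ (hS 5) h1 h2
  exact hτ.f1 a1 (hf (show (1 : Fin 6) < 2 by decide)) (hf (show (2 : Fin 6) < 4 by decide))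
    (a2.trans ((hv 5 2).1 (by decide))) ((hv 2 4).1 (by decide)) ((hv 4 1).1 (by decide))

lemma Unavoidable.av2 {l : ℕ} {π : Equiv.Perm (Fin l)} (hπ : Unavoidable π) :
    Avoids p461352 π := by
  refine avoids_of (inC_of_dec _ (by decide)) ?_ hπ
  rintro n τ S hτ H ⟨f, hf, hS, hv⟩
  have h1 : XR τ (f 1) (f 4) :=
    ⟨hf (by decide), (hv 4 1).1 (by decide), f 0, hf (by decide), (hv 0 4).1 (by decide)⟩
  have h2 : XR τ (f 4) (f 5) :=
    ⟨hf (by decide), (hv 5 4).1 (by decide), f 2, hf (by decide), (hv 2 5).1 (by decide)⟩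
  obtain ⟨-, -, m, a1, a2⟩ := H _ (hS 1) _ (hS 4) _ (hS 5) h1 h2
  exact hτ.f1 a1 (hf (show (1 : Fin 6) < 3 by decide)) (hf (show (3 : Fin 6) < 4 by decide))
    (a2.trans ((hv 5 3).1 (by decide))) ((hv 3 4).1 (by decide)) ((hv 4 1).1 (by decide))

lemma Unavoidable.av3 {l : ℕ} {π : Equiv.Perm (Fin l)} (hπ : Unavoidable π) :
    Avoids p5736142 π := by
  refine avoids_of (inC_of_dec _ (by decide)) ?_ hπ
  rintro n τ S hτ H ⟨f, hf, hS, hv⟩
  have h1 : XR τ (f 1) (f 3) :=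
    ⟨hf (by decide), (hv 3 1).1 (by decide), f 0, hf (by decide), (hv 0 3).1 (by decide)⟩
  have h2 : XR τ (f 3) (f 5) :=
    ⟨hf (by decide), (hv 5 3).1 (by decide), f 2, hf (by decide), (hv 2 5).1 (by decide)⟩
  have h3 : XR τ (f 5) (f 6) :=
    ⟨hf (by decide), (hv 6 5).1 (by decide), f 4, hf (by decide), (hv 4 6).1 (by decide)⟩
  obtain ⟨-, -, m, a1, a2⟩ := H _ (hS 1) _ (hS 5) _ (hS 6)
    (H _ (hS 1) _ (hS 3) _ (hS 5) h1 h2) h3
  exact hτ.f1 a1 (hf (show (1 : Fin 7) < 2 by decide)) (hf (show (2 : Fin 7) < 3 by decide))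
    (a2.trans ((hv 6 2).1 (by decide))) ((hv 2 3).1 (by decide)) ((hv 3 1).1 (by decide))

end Pool.Agent.Lib.MP_276eaf_co
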