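import Mathlib
import Pool.Agent.Lib.MP_276eaf_co.Ind
import Pool.Agent.Lib.MP_276eaf_co.Arcs
import Pool.Agent.Lib.MP_276eaf_co.Upper

set_option autoImplicit false

namespace Pool.Agent.Lib.MP_276eaf_co

/-- The point of the entry at position `i`. -/
def pt {k : ℕ} (π : Equiv.Perm (Fin k)) (i : Fin k) : Pt := (-((π i).val : ℚ), (i.val : ℚ))

lemma pt1 {k : ℕ} (π : Equiv.Perm (Fin k)) (i j : Fin k) :
    (pt π i).1 < (pt π j).1 ↔ (π j).val < (π i).val := by simp [pt]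

lemma pt2 {k : ℕ} (π : Equiv.Perm (Fin k)) (i j : Fin k) : (pt π i).2 < (pt π j).2 ↔ i < j := by
  simp [pt]

lemma inj_pt {k : ℕ} (π : Equiv.Perm (Fin k)) : Inj (Finset.univ.image (pt π)) := by
  constructor
  · simp only [Finset.mem_image, Finset.mem_univ, true_and]
    rintro _ ⟨i, rfl⟩ _ ⟨j, rfl⟩ h
    simp only [pt, neg_inj, Nat.cast_inj] at h
    rw [π.injective (Fin.ext h)]
  · simp only [Finset.mem_image, Finset.mem_univ, true_and]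
    rintro _ ⟨i, rfl⟩ _ ⟨j, rfl⟩ h
    simp only [pt, Nat.cast_inj] at h
    rw [Fin.ext h]

lemma av4_pt {k : ℕ} {π : Equiv.Perm (Fin k)} (h0 : InC π) (h1 : Avoids p463152 π)
    (h2 : Avoids p461352 π) (h3 : Avoids p5736142 π) : Av4 (Finset.univ.image (pt π)) := by
  constructor <;> simp only [Finset.mem_image, Finset.mem_univ, true_and]
  · rintro _ ⟨m, rfl⟩ _ ⟨p, rfl⟩ _ ⟨q, rfl⟩ _ ⟨r, rfl⟩
    simp only [pt1, pt2]
    intro a1 a2 a3 b1 b2 b3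
    exact h0.f1 a1 a2 a3 b3 b2 b1
  · rintro _ ⟨e1, rfl⟩ _ ⟨e2, rfl⟩ _ ⟨e3, rfl⟩ _ ⟨e4, rfl⟩ _ ⟨e5, rfl⟩ _ ⟨e6, rfl⟩
    simp only [pt1, pt2]
    intro a1 a2 a3 a4 a5 b1 b2 b3 b4 b5
    refine h1 ⟨![e1, e2, e3, e4, e5, e6], ?_, fun _ => trivial, ?_⟩
    · rw [Fin.strictMono_iff_lt_succ]
      intro i
      fin_cases i
      exacts [a1, a2, a3, a4, a5]
    · intro i j
      simp only [Fin.lt_def]
      fin_cases i <;> fin_cases j <;> simp [p463152] <;> omega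
  · rintro _ ⟨e1, rfl⟩ _ ⟨e2, rfl⟩ _ ⟨e3, rfl⟩ _ ⟨e4, rfl⟩ _ ⟨e5, rfl⟩ _ ⟨e6, rfl⟩
    simp only [pt1, pt2]
    intro a1 a2 a3 a4 a5 b1 b2 b3 b4 b5
    refine h2 ⟨![e1, e2, e3, e4, e5, e6], ?_, fun _ => trivial, ?_⟩
    · rw [Fin.strictMono_iff_lt_succ]
      intro i
      fin_cases i
      exacts [a1, a2, a3, a4, a5]
    · intro i j
      simp only [Fin.lt_def]
      fin_cases i <;> fin_cases j <;> simp [p461352] <;> omega
  · rintro _ ⟨e1, rfl⟩ _ ⟨e2, rfl⟩ _ ⟨e3, rfl⟩ _ ⟨e4, rfl⟩ _ ⟨e5, rfl⟩ _ ⟨e6, rfl⟩ _ ⟨e7, rfl⟩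
    simp only [pt1, pt2]
    intro a1 a2 a3 a4 a5 a6 b1 b2 b3 b4 b5 b6
    refine h3 ⟨![e1, e2, e3, e4, e5, e6, e7], ?_, fun _ => trivial, ?_⟩
    · rw [Fin.strictMono_iff_lt_succ]
      intro i
      fin_cases i
      exacts [a1, a2, a3, a4, a5, a6]
    · intro i j
      simp only [Fin.lt_def]
      fin_cases i <;> fin_cases j <;> simp [p5736142] <;> omega

lemma acopy_of_emb {k : ℕ} {σ : Equiv.Perm (Fin k)} {T : Finset Pt} {c : Pt → Prop} {f : Pt → Pt}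
    (u : Fin k → Pt) (h1 : ∀ i j, i < j → (u i).2 < (u j).2)
    (h2 : ∀ i j, σ i < σ j → (u j).1 < (u i).1) (h : Emb (Finset.univ.image u) T c f)
    (S : Set T) (hS : ∀ p : T, c p.1 → p ∈ S) :
    ACopy σ (fun p : T => p.1.1) (fun p : T => p.1.2) S := by
  have m : ∀ i, u i ∈ Finset.univ.image u := fun i => Finset.mem_image_of_mem _ (Finset.mem_univ i)
  refine ⟨fun i => ⟨f (u i), h.mem _ (m i)⟩, fun i j hij => h.m2 _ (m i) _ (m j) (h1 i j hij),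
    fun i => hS _ (h.col _ (m i)), fun i j => ⟨fun a => h.m1 _ (m j) _ (m i) (h2 i j a), fun a => ?_⟩⟩
  rcases lt_trichotomy (σ i) (σ j) with e | e | e
  · exact e
  · rw [σ.injective e] at a
    exact absurd a (lt_irrefl _)
  · exact absurd a (lt_asymm (h.m1 _ (m i) _ (m j) (h2 j i e)))

lemma unavoidable_of_avoids {k : ℕ} {π : Equiv.Perm (Fin k)} (h0 : InC π) (h1 : Avoids p463152 π)
    (h2 : Avoids p461352 π) (h3 : Avoids p5736142 π) : Unavoidable π := by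
  classical
  refine ⟨h0, fun m ρ hρ => ?_⟩
  obtain ⟨a, b, hab, hb, ha⟩ := exists_arcs ρ hρ
  have hK : Good (Finset.univ.image (fun i => (((a i : ℚ), (b i : ℚ)) : Pt))) := by
    refine ⟨⟨?_, ?_⟩, ?_, ?_⟩ <;> simp only [Finset.mem_image, Finset.mem_univ, true_and]
    · rintro _ ⟨i, rfl⟩ _ ⟨j, rfl⟩ h
      rw [hab.ainj (Nat.cast_injective h)]
    · rintro _ ⟨i, rfl⟩ _ ⟨j, rfl⟩ h
      rw [hab.binj (Nat.cast_injective h)]
    · rintro _ ⟨i, rfl⟩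
      exact Nat.cast_lt.2 (hab.lt i)
    · rintro _ ⟨p, rfl⟩ _ ⟨q, rfl⟩ _ ⟨r, rfl⟩
      simp only [Nat.cast_lt]
      exact hab.free p q r
  obtain ⟨T, hT, -, H⟩ := sf_all hK _ _ le_rfl (inj_pt π) (av4_pt h0 h1 h2 h3) 0 1 one_pos
  have hA : Arcs (fun p : T => p.1.1) (fun p : T => p.1.2) :=
    ⟨fun p => hT.lt _ p.2, fun p q h => Subtype.ext (hT.i1 _ p.2 _ q.2 h),
      fun p q h => Subtype.ext (hT.i2 _ p.2 _ q.2 h), fun p q r => hT.free _ p.2 _ q.2 _ r.2⟩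
  obtain ⟨n, τ, e, hτ, he⟩ := exists_perm hA
  refine ⟨n, τ, hτ, fun R => ?_⟩
  rcases H (fun p => ∃ h : p ∈ T, e.symm ⟨p, h⟩ ∈ R) with ⟨f, hf⟩ | ⟨f, hf⟩
  · exact Or.inl (he _ _ _ (acopy_of_emb (pt π) (fun i j h => (pt2 π i j).2 h)
      (fun i j h => (pt1 π j i).2 h) hf _ (fun p ⟨_, h⟩ => h)))
  · exact Or.inr (he _ _ _ (acopy_of_emb _ (fun i j h => Nat.cast_lt.2 (hb h))
      (fun i j h => Nat.cast_lt.2 ((ha i j).1 h)) hf _ (fun p h h' => h ⟨p.2, h'⟩)))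

theorem core_iff {k : ℕ} (π : Equiv.Perm (Fin k)) : Unavoidable π ↔
    Avoids p1423 π ∧ Avoids p461352 π ∧ Avoids p463152 π ∧ Avoids p5736142 π :=
  ⟨fun h => ⟨h.1, h.av2, h.av1, h.av3⟩, fun h => unavoidable_of_avoids h.1 h.2.2.1 h.2.1 h.2.2.2⟩

end Pool.Agent.Lib.MP_276eaf_co
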